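import Pool.Agent.H360.JK.Rep

/-!
# Coordinates of the elements of braid words; elements near `1` modulo a prime
-/

set_option autoImplicit false

namespace Pool.Agent.H360.JK

open Finset LaurentPolynomial Pool.Agent.H891R2.Jones Pool.Agent.W639.RB Pool.Agent.Y463.SK
  Pool.Agent.Y463.MP Pool.Agent.Helper52_CV

/-! ### the coordinates -/

theorem tlEZ : TL4 dl (EZ 4 0) (EZ 4 1) (EZ 4 2) where
  aa := (isTL_EZ 4).sq 0 (by norm_num)
  bb := (isTL_EZ 4).sq 1 (by norm_num)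
  cc := (isTL_EZ 4).sq 2 (by norm_num)
  aba := (isTL_EZ 4).up 0 (by norm_num)
  bab := (isTL_EZ 4).down 0 (by norm_num)
  bcb := (isTL_EZ 4).up 1 (by norm_num)
  cbc := (isTL_EZ 4).down 1 (by norm_num)
  ca := ((isTL_EZ 4).far 0 2 (by norm_num) (by norm_num)).symm

theorem wd_congr {R B : Type*} [CommRing R] [Ring B] [Algebra R B] (A A' : R) (e e' : ℕ → B)
    (w : List (Bool × ℕ)) (h : ∀ x ∈ w, e x.2 = e' x.2) : wd A A' e w = wd A A' e' w := by
  unfold wd
  congr 1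
  refine List.map_congr_left fun x hx => ?_
  unfold ltr
  rw [h x hx]

/-- the coordinates of a word -/
noncomputable def co (w : List (Letter 4)) : Co ℤ[T;T⁻¹] := coW (T 1) (T (-1)) dl (toN w)

theorem zz_co (w : List (Letter 4)) : zz w = (co w).lin (EZ 4 0) (EZ 4 1) (EZ 4 2) := by
  rw [co, ← tlEZ.wd_eq]
  refine wd_congr _ _ _ _ _ fun x hx => ?_
  have h := toN_lt w x hx
  obtain ⟨b, i⟩ := x
  simp only at h ⊢
  have : i = 0 ∨ i = 1 ∨ i = 2 := by omega
  rcases this with rfl | rfl | rfl <;> rfl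

/-! ### base change -/

/-- the image under a map of rings -/
def Co.map {L L' : Type*} [CommRing L] [CommRing L'] (φ : L →+* L') (y : Co L) : Co L' where
  o := φ y.o
  a := φ y.a
  b := φ y.b
  c := φ y.c
  ab := φ y.ab
  ba := φ y.ba
  bc := φ y.bc
  cb := φ y.cb
  ac := φ y.ac
  abc := φ y.abc
  cba := φ y.cba
  bac := φ y.bac
  acb := φ y.acb
  bacb := φ y.bacb

section

variable {L L' : Type*} [CommRing L] [CommRing L'] (φ : L →+* L')

theorem Co.map_mE (δ : L) (i : ℕ) (y : Co L) : (y.mE δ i).map φ = (y.map φ).mE (φ δ) i := by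
  unfold Co.mE
  split_ifs <;> simp [Co.map, Co.mA, Co.mB, Co.mC]

theorem coW_map (A A' δ : L) (w : List (Bool × ℕ)) :
    (coW A A' δ w).map φ = coW (φ A) (φ A') (φ δ) w := by
  induction w with
  | nil => simp [coW, Co.one, Co.map]
  | cons x w ih =>
    rw [coW, coW, ← ih, ← Co.map_mE]
    split_ifs <;> simp [Co.map, Co.comb]

end

/-! ### the representations -/

section rep

variable {R : Type*} [CommRing R]

/-- the image of a word in the representation of dimension three -/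
def r3 (A A' : R) (w : List (Bool × ℕ)) : Matrix (Fin 3) (Fin 3) R :=
  wd A A' (seq3 (Ea A A') (Eb A A') (Ec A A')) w

/-- the image of a word in the representation of dimension two -/
def r2 (A A' : R) (w : List (Bool × ℕ)) : Matrix (Fin 2) (Fin 2) R :=
  wd A A' (seq3 (Ga A A') (Gb A A') (Ga A A')) w

/-- the image of a word in the representation of dimension one -/
def r1 (A A' : R) (w : List (Bool × ℕ)) : R := wd A A' (seq3 (0 : R) 0 0) w

variable {A A' : R}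

theorem r3_co (h : A * A' = 1) (w : List (Bool × ℕ)) :
    r3 A A' w = (coW A A' (-A ^ 2 - A' ^ 2) w).m3 A A' := by
  rw [← lin3 h, ← (tl3 h).wd_eq]; rfl

theorem r2_co (h : A * A' = 1) (w : List (Bool × ℕ)) :
    r2 A A' w = (coW A A' (-A ^ 2 - A' ^ 2) w).m2 A A' := by
  rw [← lin2 h, ← (tl2 h).wd_eq]; rfl

theorem r1_co (w : List (Bool × ℕ)) :
    r1 A A' w = (coW A A' (-A ^ 2 - A' ^ 2) w).o := by
  rw [← lin1, ← (tl1 (-A ^ 2 - A' ^ 2)).wd_eq]; rfl

variable {B : Type*} [Ring B] [Algebra R B]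

theorem ltr_inv {e : ℕ → B} (h : A * A' = 1) (he : ∀ i, e i * e i = (-A ^ 2 - A' ^ 2) • e i)
    (x : Bool × ℕ) : ltr A A' e x * ltr A A' e (!x.1, x.2) = 1 := by
  have key : ∀ (a a' : R) (e : B), a * a' = 1 → e * e = (-a ^ 2 - a' ^ 2) • e →
      (a • (1 : B) + a' • e) * (a' • (1 : B) + a • e) = 1 := by
    intro a a' e h1 h2
    have h3 : (a • (1 : B) + a' • e) * (a' • (1 : B) + a • e) =
        (a * a') • (1 : B) + (a' * a' + a * a + a * a' * (-a ^ 2 - a' ^ 2)) • e := by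
      simp only [mul_add, add_mul, smul_mul_assoc, mul_smul_comm, one_mul, mul_one, h2]
      module
    have h4 : a' * a' + a * a + a * a' * (-a ^ 2 - a' ^ 2) = 0 := by rw [h1]; ring
    rw [h3, h4, h1, one_smul, zero_smul, add_zero]
  obtain ⟨b, i⟩ := x
  unfold ltr
  cases b
  · simp only [Bool.false_eq_true, if_false, Bool.not_false, if_true]
    refine key _ _ _ (by rw [mul_comm]; exact h) ?_
    rw [he]
    congr 1
    ring
  · simp only [Bool.not_true, Bool.false_eq_true, if_false, if_true]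
    exact key _ _ _ h (he i)

theorem invL_cons (x : Bool × ℕ) (w : List (Bool × ℕ)) : invL (x :: w) = invL w ++ [(!x.1, x.2)] := by
  simp [invL]

theorem invL_append (v w : List (Bool × ℕ)) : invL (v ++ w) = invL w ++ invL v := by
  simp [invL]

theorem invL_invL (w : List (Bool × ℕ)) : invL (invL w) = w := by
  simp [invL, List.map_reverse, Function.comp_def]

theorem wd_inv {e : ℕ → B} (h : A * A' = 1) (he : ∀ i, e i * e i = (-A ^ 2 - A' ^ 2) • e i)
    (w : List (Bool × ℕ)) : wd A A' e w * wd A A' e (invL w) = 1 := by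
  induction w with
  | nil => simp [wd, invL]
  | cons x w ih =>
    have e1 : wd A A' e (x :: w) = ltr A A' e x * wd A A' e w := by simp [wd]
    have e2 : wd A A' e [(!x.1, x.2)] = ltr A A' e (!x.1, x.2) := by simp [wd]
    rw [invL_cons, e1, wd_append, e2, mul_assoc, ← mul_assoc (wd A A' e w), ih, one_mul]
    exact ltr_inv h he x

theorem seq_sq {δ : R} {a b c : B} (H : TL4 δ a b c) (i : ℕ) :
    seq3 a b c i * seq3 a b c i = δ • seq3 a b c i := by
  unfold seq3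
  split_ifs
  · exact H.aa
  · exact H.bb
  · exact H.cc

theorem r3_append (v w : List (Bool × ℕ)) : r3 A A' (v ++ w) = r3 A A' v * r3 A A' w :=
  wd_append _ _ _ _ _
theorem r2_append (v w : List (Bool × ℕ)) : r2 A A' (v ++ w) = r2 A A' v * r2 A A' w :=
  wd_append _ _ _ _ _
theorem r1_append (v w : List (Bool × ℕ)) : r1 A A' (v ++ w) = r1 A A' v * r1 A A' w :=
  wd_append _ _ _ _ _

theorem r3_inv (h : A * A' = 1) (w : List (Bool × ℕ)) : r3 A A' w * r3 A A' (invL w) = 1 :=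
  wd_inv h (seq_sq (tl3 h)) w
theorem r2_inv (h : A * A' = 1) (w : List (Bool × ℕ)) : r2 A A' w * r2 A A' (invL w) = 1 :=
  wd_inv h (seq_sq (tl2 h)) w
theorem r1_inv (h : A * A' = 1) (w : List (Bool × ℕ)) : r1 A A' w * r1 A A' (invL w) = 1 :=
  wd_inv h (seq_sq (tl1 _)) w

/-- the commutator of two words -/
def cmL (u v : List (Bool × ℕ)) : List (Bool × ℕ) := u ++ v ++ invL u ++ invL v

theorem r1_cm (h : A * A' = 1) (u v : List (Bool × ℕ)) : r1 A A' (cmL u v) = 1 := by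
  unfold cmL
  rw [r1_append, r1_append, r1_append]
  linear_combination (r1 A A' v * r1 A A' (invL v)) * r1_inv h u + r1_inv h v

theorem r2_cm (h : A * A' = 1) (u v : List (Bool × ℕ)) (hu : r2 A A' u = 1 ∨ r2 A A' v = 1) :
    r2 A A' (cmL u v) = 1 := by
  have h1 := r2_inv h u
  have h2 := r2_inv h v
  unfold cmL
  rw [r2_append, r2_append, r2_append]
  rcases hu with hu | hu
  · rw [hu, one_mul] at h1
    rw [hu, h1, one_mul, mul_one, h2]
  · rw [hu, one_mul] at h2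
    rw [hu, h2, mul_one, mul_one, h1]

theorem r3_cm (h : A * A' = 1) (u v : List (Bool × ℕ)) {s : R} (hu : r3 A A' u = s • 1) :
    r3 A A' (cmL u v) = 1 := by
  have h1 := r3_inv h u
  have h2 := r3_inv h v
  unfold cmL
  rw [r3_append, r3_append, r3_append]
  rw [hu, smul_mul_assoc, one_mul] at h1
  rw [hu, smul_mul_assoc, one_mul, smul_mul_assoc, ← mul_smul_comm, h1, mul_one, h2]

/-- **the values of the three representations determine the element** -/
theorem coW_one [IsDomain R] (h : A * A' = 1) (hd0 : -A ^ 2 - A' ^ 2 ≠ (0 : R))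
    (hd2 : (-A ^ 2 - A' ^ 2) ^ 2 - 2 ≠ (0 : R)) (hd1 : (-A ^ 2 - A' ^ 2) ^ 2 - 1 ≠ (0 : R))
    (w : List (Bool × ℕ)) (k1 : r1 A A' w = 1) (k2 : r2 A A' w = 1) (k3 : r3 A A' w = 1) :
    coW A A' (-A ^ 2 - A' ^ 2) w = Co.one := by
  rw [r1_co] at k1
  rw [r2_co h] at k2
  rw [r3_co h] at k3
  exact co_unique h hd0 hd2 hd1 _ k1 k3 k2

end rep

/-! ### modulo a prime -/

section prime

variable (p : ℕ)

/-- the reduction modulo `p` -/
noncomputable def red : ℤ[T;T⁻¹] →+* (ZMod p)[T;T⁻¹] :=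
  AddMonoidAlgebra.mapRingHom ℤ (Int.castRingHom (ZMod p))

theorem red_T (n : ℤ) : red p (T n) = T n := by
  unfold red
  rw [LaurentPolynomial.T, AddMonoidAlgebra.mapRingHom_single, map_one]
  rfl

theorem red_zero {f : ℤ[T;T⁻¹]} (h : red p f = 0) : (p : ℤ[T;T⁻¹]) ∣ f := by
  have h1 : ∀ n : ℤ, ∃ c : ℤ, f.coeff n = p * c := by
    intro n
    have h2 : (red p f).coeff n = 0 := by rw [h]; rfl
    unfold red at h2
    rw [AddMonoidAlgebra.coeff_mapRingHom] at h2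
    exact (ZMod.intCast_zmod_eq_zero_iff_dvd _ p).1 h2
  rw [← AddMonoidAlgebra.sum_coeff_single f]
  refine Finset.dvd_sum fun n _ => ?_
  obtain ⟨c, hc⟩ := h1 n
  refine ⟨AddMonoidAlgebra.single n c, ?_⟩
  rw [hc, single_eq_C_mul_T, single_eq_C_mul_T, map_mul, mul_assoc]
  congr 1

theorem red_dvd {f g : ℤ[T;T⁻¹]} (h : red p f = red p g) : ∃ y, f = g + (p : ℤ[T;T⁻¹]) * y := by
  obtain ⟨y, hy⟩ := red_zero p (f := f - g) (by rw [map_sub, h, sub_self])
  exact ⟨y, by rw [← hy]; ring⟩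

theorem coeff_T {R : Type*} [CommRing R] (n m : ℤ) :
    (T n : R[T;T⁻¹]).coeff m = if n = m then 1 else 0 := by
  unfold LaurentPolynomial.T
  rw [AddMonoidAlgebra.coeff_single, Finsupp.single_apply]

theorem delta_ne [Fact p.Prime] : (-(T 1) ^ 2 - (T (-1)) ^ 2 : (ZMod p)[T;T⁻¹]) ≠ 0 ∧
    ((-(T 1) ^ 2 - (T (-1)) ^ 2 : (ZMod p)[T;T⁻¹]) ^ 2 - 2 ≠ 0) ∧
    ((-(T 1) ^ 2 - (T (-1)) ^ 2 : (ZMod p)[T;T⁻¹]) ^ 2 - 1 ≠ 0) := by
  have e0 : (-(T 1) ^ 2 - (T (-1)) ^ 2 : (ZMod p)[T;T⁻¹]) = -T 2 - T (-2) := by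
    rw [T_pow, T_pow]; norm_num
  have e1 : (-(T 1) ^ 2 - (T (-1)) ^ 2 : (ZMod p)[T;T⁻¹]) ^ 2 = T 4 + T 0 + T 0 + T (-4) := by
    rw [e0]
    have h1 : (T 2 : (ZMod p)[T;T⁻¹]) * T 2 = T 4 := by rw [← T_add]; norm_num
    have h2 : (T 2 : (ZMod p)[T;T⁻¹]) * T (-2) = T 0 := by rw [← T_add]; norm_num
    have h3 : (T (-2) : (ZMod p)[T;T⁻¹]) * T (-2) = T (-4) := by rw [← T_add]; norm_num
    linear_combination h1 + 2 * h2 + h3
  refine ⟨?_, ?_, ?_⟩
  · rw [e0]
    intro h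
    have h1 := congrArg (fun f : (ZMod p)[T;T⁻¹] => f.coeff 2) h
    simp at h1
  · rw [e1]
    intro h
    have h1 := congrArg (fun f : (ZMod p)[T;T⁻¹] => f.coeff 4) h
    have e : (2 : (ZMod p)[T;T⁻¹]) = T 0 + T 0 := by rw [T_zero]; norm_num
    rw [e] at h1
    simp at h1
  · rw [e1]
    intro h
    have h1 := congrArg (fun f : (ZMod p)[T;T⁻¹] => f.coeff 4) h
    have e : (AddMonoidAlgebra.coeff (1 : (ZMod p)[T;T⁻¹])) 4 = 0 := by
      rw [← T_zero, coeff_T, if_neg (by norm_num)]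
    simp [e] at h1

/-- a pure word with the value `1` in the three representations modulo `p` -/
theorem wk_prime [Fact p.Prime] (w : List (Letter 4))
    (k1 : r1 (T 1 : (ZMod p)[T;T⁻¹]) (T (-1)) (toN w) = 1)
    (k2 : r2 (T 1 : (ZMod p)[T;T⁻¹]) (T (-1)) (toN w) = 1)
    (k3 : r3 (T 1 : (ZMod p)[T;T⁻¹]) (T (-1)) (toN w) = 1)
    (hp : permL (toN w) = 1) : Wk (p : ℤ[T;T⁻¹]) w := by
  obtain ⟨d0, d2, d1⟩ := delta_ne p
  have hT : (T 1 : (ZMod p)[T;T⁻¹]) * T (-1) = 1 := by rw [← T_add]; simp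
  have h := coW_one hT d0 d2 d1 (toN w) k1 k2 k3
  have hm : (co w).map (red p) = (Co.one : Co ℤ[T;T⁻¹]).map (red p) := by
    have e1 : (Co.one : Co ℤ[T;T⁻¹]).map (red p) = Co.one := by simp [Co.one, Co.map]
    rw [co, coW_map, e1, red_T, red_T, dl, map_sub, map_neg, map_pow, map_pow, red_T, red_T]
    exact h
  refine ⟨⟨zz_inv w, zz_inv' w, 1, 1, ?_⟩, hp⟩
  have hz := zz_co w
  generalize co w = y at hm hz
  obtain ⟨o, a, b, c, ab, ba, bc, cb, ac, abc, cba, bac, acb, bacb⟩ := y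
  simp only [Co.map, Co.one, Co.mk.injEq] at hm
  obtain ⟨ho, ha, hb, hc, hab, hba, hbc, hcb, hac, habc, hcba, hbac, hacb, hbacb⟩ := hm
  obtain ⟨o', ho⟩ := red_dvd p ho
  obtain ⟨a', ha⟩ := red_dvd p ha
  obtain ⟨b', hb⟩ := red_dvd p hb
  obtain ⟨c', hc⟩ := red_dvd p hc
  obtain ⟨ab', hab⟩ := red_dvd p hab
  obtain ⟨ba', hba⟩ := red_dvd p hba
  obtain ⟨bc', hbc⟩ := red_dvd p hbc
  obtain ⟨cb', hcb⟩ := red_dvd p hcb
  obtain ⟨ac', hac⟩ := red_dvd p hac
  obtain ⟨abc', habc⟩ := red_dvd p habc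
  obtain ⟨cba', hcba⟩ := red_dvd p hcba
  obtain ⟨bac', hbac⟩ := red_dvd p hbac
  obtain ⟨acb', hacb⟩ := red_dvd p hacb
  obtain ⟨bacb', hbacb⟩ := red_dvd p hbacb
  refine ⟨(⟨o', a', b', c', ab', ba', bc', cb', ac', abc', cba', bac', acb', bacb'⟩ : Co _).lin
    (EZ 4 0) (EZ 4 1) (EZ 4 2), mul_one 1, ?_⟩
  rw [hz, ho, ha, hb, hc, hab, hba, hbc, hcb, hac, habc, hcba, hbac, hacb, hbacb, one_smul]
  simp only [Co.lin, zero_add]
  module

end prime

end Pool.Agent.H360.JK
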