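import Pool.Agent.H360.JK.Kern

/-!
# The family
-/

set_option autoImplicit false

namespace Pool.Agent.H360.JK

open Finset LaurentPolynomial Pool.Agent.H891R2.Jones Pool.Agent.W639.RB Pool.Agent.Y463.SK
  Pool.Agent.Y463.MP Pool.Agent.Helper52_CV

/-! ### the words `g_p` -/

theorem perm_a2 : permL (toN a2) = 1 := by
  simp [a2, toN, permL]

theorem perm_cm (u v : List (Letter 4)) (h : permL (toN v) = 1) : permL (toN (cm u v)) = 1 := by
  have h1 := permL_inv (toN u)
  have h2 := permL_inv (toN v)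
  rw [toN_cm]
  unfold cmL
  rw [permL_append, permL_append, permL_append, h, mul_one, h1, one_mul]
  rw [h, one_mul] at h2
  exact h2

theorem r2_a2 {R : Type*} [CommRing R] {A A' : R} (h : A * A' = 1) : r2 A A' (toN a2) = 1 := by
  have e : r2 A A' (toN a2) = r2 A A' ([(true, 0), (true, 0)] ++ invL [(true, 0), (true, 0)]) := by
    simp [r2, wd, ltr, seq3, invL, toN, a2]
  rw [e, r2_append, r2_inv h]

theorem cast_zero (p : ℕ) : ((p : ℕ) : (ZMod p)[T;T⁻¹]) = 0 := by
  have h : ((p : ℕ) : (ZMod p)[T;T⁻¹]) = C ((p : ℕ) : ZMod p) := (map_natCast C p).symm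
  rw [h, ZMod.natCast_self, map_zero]

theorem wk_g (p n : ℕ) [Fact p.Prime] (w : List (Letter 4)) (h : chk p n (toN w).reverse = true) :
    Wk (p : ℤ[T;T⁻¹]) (cm w a2) := by
  have hT : (T 1 : (ZMod p)[T;T⁻¹]) * T (-1) = 1 := by rw [← T_add]; simp
  have h3 := SP_chk (t := (T (-1) : (ZMod p)[T;T⁻¹]) ^ 4) (cast_zero p)
    (Fact.out : p.Prime).one_lt.le n (toN w) h
  refine wk_prime p (cm w a2) ?_ ?_ ?_ (perm_cm _ _ perm_a2)
  · rw [toN_cm]; exact r1_cm hT _ _
  · rw [toN_cm]; exact r2_cm hT _ _ (Or.inr (r2_a2 hT))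
  · rw [toN_cm]
    refine r3_cm hT _ _ (s := T 1 ^ exs (toN w) * (T (-1) ^ 4) ^ n) ?_
    rw [r3_SP hT, h3, smul_smul]

theorem wk_x : Wk ((2 : ℤ[T;T⁻¹]) * 3 * 5) xw := by
  have : Fact (Nat.Prime 2) := ⟨by norm_num⟩
  have : Fact (Nat.Prime 3) := ⟨by norm_num⟩
  have : Fact (Nat.Prime 5) := ⟨by norm_num⟩
  have h2 := wk_g 2 8 W2 chk2
  have h3 := wk_g 3 24 W3 chk3
  have h5 := wk_g 5 80 W5 chk5
  have := (Wk.comm (Wk.comm h2 h3).wk h5).wk
  push_cast at this
  exact this

/-! ### residues of pairs -/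

/-- residues of a word and of its inverse -/
structure RR (c c' : ℤ) (R R' : M7) (w : List (Bool × ℕ)) : Prop where
  fst : Res c R (q3 w)
  snd : Res c' R' (q3 (invL w))

theorem Res.cg {c c' : ℤ} {R R' : M7} {M M' : Matrix (Fin 3) (Fin 3) ℚ} (h : Res c R M)
    (hc : c = c') (hR : R = R') (hM : M = M') : Res c' R' M' := by
  subst hc hR hM; exact h

theorem RR.cm {c c' d d' : ℤ} {R R' S S' : M7} {u v : List (Bool × ℕ)} (h : RR c c' R R' u)
    (h' : RR d d' S S' v) : RR (c + d + c' + d') (c + d + c' + d') (R * S * R' * S')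
      (S * R * S' * R') (cmL u v) := by
  refine ⟨?_, ?_⟩
  · refine (((h.fst.mul h'.fst).mul h.snd).mul h'.snd).cg rfl rfl ?_
    unfold cmL q3
    rw [r3_append, r3_append, r3_append]
  · refine (((h'.fst.mul h.fst).mul h'.snd).mul h.snd).cg (by ring) rfl ?_
    have e : invL (cmL u v) = v ++ u ++ invL v ++ invL u := by
      unfold cmL
      rw [invL_append, invL_append, invL_append, invL_invL, invL_invL]
      simp only [List.append_assoc]
    rw [e]
    unfold q3
    rw [r3_append, r3_append, r3_append]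

theorem RR.conj {c c' d d' : ℤ} {R R' S S' : M7} {u w : List (Bool × ℕ)} (h : RR c c' R R' u)
    (h' : RR d d' S S' w) : RR (d + c + d') (d + c' + d') (S * R * S') (S * R' * S')
      (w ++ u ++ invL w) := by
  refine ⟨?_, ?_⟩
  · refine ((h'.fst.mul h.fst).mul h'.snd).cg rfl rfl ?_
    unfold q3
    rw [r3_append, r3_append]
  · refine ((h'.fst.mul h.snd).mul h'.snd).cg rfl rfl ?_
    rw [invL_append, invL_append, invL_invL]
    unfold q3
    rw [← List.append_assoc, r3_append, r3_append]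

theorem RR.cg {c c' d d' : ℤ} {R R' S S' : M7} {u v : List (Bool × ℕ)} (h : RR c c' R R' u)
    (h1 : c = d) (h2 : c' = d') (h3 : R = S) (h4 : R' = S') (h5 : u = v) : RR d d' S S' v := by
  subst h1 h2 h3 h4 h5; exact h

theorem rr_x : RR 1200 1200 !![4, 4, 3; 0, 0, 0; 0, 0, 0] !![0, 0, 0; 0, 1, 3; 0, 1, 3] (toN xw) :=
  ⟨res_x, res_x'⟩

theorem rr_gam : RR 1 3 !![0, 0, 1; 6, 1, 1; 0, 0, 1] !![6, 0, 1; 6, 0, 1; 0, 0, 0]
    [(true, 0), (true, 1), (false, 0)] := by
  refine ⟨?_, ?_⟩
  · have h := res_word [(true, 0), (true, 1), (false, 0)] 5 4 (by decide +kernel) (a := 0)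
      (b := 6) (c := 0) (a' := 0) (b' := 1) (c' := 0) (a'' := 1) (b'' := 1) (c'' := 1)
      (by decide +kernel)
    norm_num at h
    exact h
  · have h := res_word (invL [(true, 0), (true, 1), (false, 0)]) 7 4 (by decide +kernel) (a := 6)
      (b := 6) (c := 0) (a' := 0) (b' := 0) (c' := 0) (a'' := 1) (b'' := 1) (c'' := 0)
      (by decide +kernel)
    norm_num at h
    exact h

theorem rr_c0 : RR 2 6 !![6, 1, 1; 6, 1, 1; 0, 0, 1] !![1, 6, 0; 1, 6, 0; 0, 0, 0]
    [(true, 0), (true, 0), (true, 1), (false, 0)] := by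
  refine ⟨?_, ?_⟩
  · have h := res_word [(true, 0), (true, 0), (true, 1), (false, 0)] 6 4 (by decide +kernel)
      (a := 6) (b := 6) (c := 0) (a' := 1) (b' := 1) (c' := 0) (a'' := 1) (b'' := 1) (c'' := 1)
      (by decide +kernel)
    norm_num at h
    exact h
  · have h := res_word (invL [(true, 0), (true, 0), (true, 1), (false, 0)]) 10 4
      (by decide +kernel) (a := 1) (b := 1) (c := 0) (a' := 6) (b' := 6) (c' := 0) (a'' := 0)
      (b'' := 0) (c'' := 0) (by decide +kernel)
    norm_num at h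
    exact h

theorem res_b0 : Res (-1) !![0, 0, 6; 1, 0, 6; 0, 1, 6] (q3 [(true, 0), (true, 1), (true, 2)]) := by
  have h := res_word [(true, 0), (true, 1), (true, 2)] 3 4 (by decide +kernel)
    (a := 0) (b := 1) (c := 0) (a' := 0) (b' := 0) (c' := 1) (a'' := 6) (b'' := 6) (c'' := 6)
    (by decide +kernel)
  norm_num at h
  exact h

theorem res_s0 : Res 1 !![0, 1, 0; 0, 1, 0; 0, 0, 1] (q3 [(true, 0)]) := by
  have h := res_word [(true, 0)] 1 0 (by decide +kernel)
    (a := 0) (b := 0) (c := 0) (a' := 1) (b' := 1) (c' := 0) (a'' := 0) (b'' := 0) (c'' := 1)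
    (by decide +kernel)
  norm_num at h
  exact h

theorem res_s0' : Res 3 !![6, 1, 0; 0, 0, 0; 0, 0, 0] (q3 [(false, 0)]) := by
  have h := res_word [(false, 0)] 3 0 (by decide +kernel)
    (a := 6) (b := 0) (c := 0) (a' := 1) (b' := 0) (c' := 0) (a'' := 0) (b'' := 0) (c'' := 0)
    (by decide +kernel)
  norm_num at h
  exact h

theorem res_th : Res 2 !![1, 0, 0; 0, 0, 0; 0, 0, 0] (q3 [(true, 1), (true, 2)]) := by
  have h := res_word [(true, 1), (true, 2)] 2 0 (by decide +kernel)
    (a := 1) (b := 0) (c := 0) (a' := 0) (b' := 0) (c' := 0) (a'' := 0) (b'' := 0) (c'' := 0)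
    (by decide +kernel)
  norm_num at h
  exact h

theorem res_th' : Res 6 !![0, 0, 0; 0, 1, 0; 0, 0, 1]
    (q3 [(false, 2), (false, 1), (false, 2), (false, 1), (false, 2), (false, 1)]) := by
  have h := res_word [(false, 2), (false, 1), (false, 2), (false, 1), (false, 2), (false, 1)] 18 12
    (by decide +kernel)
    (a := 0) (b := 0) (c := 0) (a' := 0) (b' := 1) (c' := 0) (a'' := 0) (b'' := 0) (c'' := 1)
    (by decide +kernel)
  norm_num at h
  exact h

/-! ### powers -/

theorem idem_pow {R : M7} (h : R * R = R) {n : ℕ} (hn : 1 ≤ n) : R ^ n = R := by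
  induction n, hn using Nat.le_induction with
  | base => exact pow_one R
  | succ n _ ih => rw [pow_succ, ih, h]

theorem q3_flat (n : ℕ) (w : List (Bool × ℕ)) : q3 (List.replicate n w).flatten = q3 w ^ n := by
  induction n with
  | zero => simp [r3, wd]
  | succ n ih =>
    rw [List.replicate_succ, List.flatten_cons]
    unfold q3 at ih ⊢
    rw [r3_append, ih, pow_succ']

theorem q3_rep (n : ℕ) (x : Bool × ℕ) : q3 (List.replicate n x) = q3 [x] ^ n := by
  induction n with
  | zero => simp [r3, wd]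
  | succ n ih =>
    have e : List.replicate (n + 1) x = [x] ++ List.replicate n x := rfl
    rw [e]
    unfold q3 at ih ⊢
    rw [r3_append, ih, pow_succ']

/-- the twist of two strands -/
def tau (N : ℕ) : List (Letter 4) := List.replicate (6 * N) (false, 0)

theorem rr_tau (N : ℕ) (hN : 1 ≤ N) : RR (18 * N) (6 * N) !![1, 6, 0; 0, 0, 0; 0, 0, 0]
    !![0, 1, 0; 0, 1, 0; 0, 0, 1] (toN (tau N)) := by
  refine ⟨?_, ?_⟩
  · refine (res_s0'.pow (6 * N)).cg (by push_cast; ring) ?_ ?_
    · have e : (!![6, 1, 0; 0, 0, 0; 0, 0, 0] : M7) ^ 2 = !![1, 6, 0; 0, 0, 0; 0, 0, 0] := by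
        decide +kernel
      rw [show 6 * N = 2 * (3 * N) by ring, pow_mul, e]
      exact idem_pow (by decide +kernel) (by omega)
    · rw [tau, toN_replicate', q3_rep]
      rfl
  · refine (res_s0.pow (6 * N)).cg (by push_cast; ring) ?_ ?_
    · exact idem_pow (by decide +kernel) (by omega)
    · have e : invL (toN (tau N)) = List.replicate (6 * N) (true, 0) := by
        simp [tau, toN, invL]
      rw [e, q3_rep]

theorem rr_th (N : ℕ) (hN : 1 ≤ N) : RR (12 * N) (12 * N) !![1, 0, 0; 0, 0, 0; 0, 0, 0]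
    !![0, 0, 0; 0, 1, 0; 0, 0, 1] (toN (thW N (1 : Fin 3) 2 : List (Letter 4))) := by
  refine ⟨?_, ?_⟩
  · refine (res_th.pow (6 * N)).cg (by push_cast; ring) ?_ ?_
    · exact idem_pow (by decide +kernel) (by omega)
    · rw [toN_flatten', q3_flat]
      rfl
  · refine (res_th'.pow (2 * N)).cg (by push_cast; ring) ?_ ?_
    · exact idem_pow (by decide +kernel) (by omega)
    · have e : invL (toN (thW N (1 : Fin 3) 2 : List (Letter 4))) =
          (List.replicate (6 * N) [(false, 2), (false, 1)]).flatten := by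
        rw [toN_flatten']
        simp [invL, toN, List.reverse_flatten, List.map_flatten]
      have e2 : [(false, 2), (false, 1), (false, 2), (false, 1), (false, 2), (false, 1)] =
          (List.replicate 3 [(false, 2), (false, 1)]).flatten := rfl
      rw [e, e2, q3_flat, q3_flat, ← pow_mul]
      congr 1
      ring

end Pool.Agent.H360.JK
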