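import Pool.Agent.H360.JK.Run

/-!
# Leading terms at `A = 0` modulo 7: the value at `A = 1/7`
-/

set_option autoImplicit false

namespace Pool.Agent.H360.JK

open Finset LaurentPolynomial Pool.Agent.H891R2.Jones Pool.Agent.W639.RB Pool.Agent.Y463.SK
  Pool.Agent.Y463.MP Pool.Agent.Helper52_CV

/-- matrices modulo `7` -/
abbrev M7 := Matrix (Fin 3) (Fin 3) (ZMod 7)

/-- `7^c M` is integral and its residue is `R` -/
def Res (c : ℤ) (R : M7) (M : Matrix (Fin 3) (Fin 3) ℚ) : Prop :=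
  ∃ N : Matrix (Fin 3) (Fin 3) ℤ, ((7 : ℚ) ^ c) • M = N.map (Int.castRingHom ℚ) ∧
    N.map (Int.castRingHom (ZMod 7)) = R

theorem Res.mul {c c' : ℤ} {R R' : M7} {M M' : Matrix (Fin 3) (Fin 3) ℚ} (h : Res c R M)
    (h' : Res c' R' M') : Res (c + c') (R * R') (M * M') := by
  obtain ⟨N, h1, h2⟩ := h
  obtain ⟨N', h1', h2'⟩ := h'
  refine ⟨N * N', ?_, ?_⟩
  · rw [zpow_add₀ (by norm_num), Matrix.map_mul, ← h1, ← h1', smul_mul_assoc, mul_smul_comm,
      smul_smul]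
  · rw [Matrix.map_mul, h2, h2']

theorem Res.one : Res 0 1 1 := ⟨1, by simp, by simp⟩

theorem Res.pow {c : ℤ} {R : M7} {M : Matrix (Fin 3) (Fin 3) ℚ} (h : Res c R M) (n : ℕ) :
    Res (n * c) (R ^ n) (M ^ n) := by
  induction n with
  | zero => simpa using Res.one
  | succ n ih =>
    have := ih.mul h
    rw [pow_succ, pow_succ]
    have e : (((n + 1 : ℕ) : ℤ) * c) = n * c + c := by push_cast; ring
    rw [e]
    exact this

/-- the traces have different valuations -/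
theorem Res.trace_ne {c c' : ℤ} {R R' : M7} {M M' : Matrix (Fin 3) (Fin 3) ℚ} (h : Res c R M)
    (h' : Res c' R' M') (hc : c < c') (hR' : R'.trace ≠ 0) : M.trace ≠ M'.trace := by
  intro he
  obtain ⟨N, h1, h2⟩ := h
  obtain ⟨N', h1', h2'⟩ := h'
  obtain ⟨d, rfl⟩ : ∃ d : ℕ, c' = c + 1 + d := ⟨(c' - c - 1).toNat, by omega⟩
  have e1 : (7 : ℚ) ^ c * M.trace = (N.trace : ℤ) := by
    have := congrArg Matrix.trace h1
    rw [Matrix.trace_smul, smul_eq_mul] at this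
    rw [this]
    simp [Matrix.trace, Fin.sum_univ_three]
  have e2 : (7 : ℚ) ^ (c + 1 + d) * M'.trace = (N'.trace : ℤ) := by
    have := congrArg Matrix.trace h1'
    rw [Matrix.trace_smul, smul_eq_mul] at this
    rw [this]
    simp [Matrix.trace, Fin.sum_univ_three]
  have e3 : (N'.trace : ℤ) = 7 ^ (d + 1) * N.trace := by
    have : ((N'.trace : ℤ) : ℚ) = ((7 ^ (d + 1) * N.trace : ℤ) : ℚ) := by
      push_cast
      rw [← e2, ← e1, ← he, zpow_add₀ (by norm_num), zpow_add₀ (by norm_num), zpow_natCast,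
        zpow_one]
      ring
    exact_mod_cast this
  apply hR'
  have e4 : R'.trace = ((N'.trace : ℤ) : ZMod 7) := by
    rw [← h2']
    simp [Matrix.trace, Fin.sum_univ_three]
  rw [e4, e3]
  push_cast
  have : (7 : ZMod 7) = 0 := by decide
  rw [this, zero_pow (by omega), zero_mul]

/-- the representation at `A = 1/7` -/
noncomputable abbrev q3 (w : List (Bool × ℕ)) : Matrix (Fin 3) (Fin 3) ℚ := r3 (1 / 7 : ℚ) 7 w

theorem h17 : (1 / 7 : ℚ) * 7 = 1 := by norm_num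

theorem SS_map {R R' : Type*} [CommRing R] [CommRing R'] (φ : R →+* R') (t : R) (x : Bool × ℕ) :
    (SS t x).map φ = SS (φ t) x := by
  obtain ⟨b, i⟩ := x
  rcases i with _ | _ | i <;> cases b <;> ext j k <;> fin_cases j <;> fin_cases k <;>
    simp [SS]

theorem SP_cons {R : Type*} [CommRing R] (t : R) (x : Bool × ℕ) (w : List (Bool × ℕ)) :
    SP t (x :: w) = SS t x * SP t w := by
  simp [SP]

theorem SP_map {R R' : Type*} [CommRing R] [CommRing R'] (φ : R →+* R') (t : R)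
    (w : List (Bool × ℕ)) : (SP t w).map φ = SP (φ t) w := by
  induction w with
  | nil => simp [SP]
  | cons x w ih =>
    rw [SP_cons, SP_cons, Matrix.map_mul, ih, SS_map]

/-- the residue of a word, computed by the machine -/
theorem res_word (w : List (Bool × ℕ)) (k e : ℕ) (hk : exs w = k)
    {a b c a' b' c' a'' b'' c'' : ℕ}
    (h : runN (7 ^ (e + 1)) (7 ^ 4) w = ((7 ^ e * a, 7 ^ e * b, 7 ^ e * c),
      (7 ^ e * a', 7 ^ e * b', 7 ^ e * c'), (7 ^ e * a'', 7 ^ e * b'', 7 ^ e * c''))) :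
    Res ((k : ℤ) - e) !![(a : ZMod 7), a', a''; b, b', b''; c, c', c''] (q3 w) := by
  have h1 := runN_eq (7 ^ (e + 1)) (7 ^ 4) (Nat.one_le_pow _ _ (by norm_num)) w h
  set N0 : Matrix (Fin 3) (Fin 3) ℤ := SP (7 ^ 4 : ℤ) w with hN0
  have h2 : N0.map (Int.castRingHom (ZMod (7 ^ (e + 1)))) = SP ((7 ^ 4 : ℕ) : ZMod (7 ^ (e + 1))) w := by
    rw [hN0, SP_map]
    congr 1
    push_cast
    exact map_ofNat _ _
  have h3 : N0.map (Int.castRingHom ℚ) = SP ((7 : ℚ) ^ 4) w := by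
    rw [hN0, SP_map]
    congr 1
  rw [h1] at h2
  have key : ∀ i j (m : ℕ), ((N0 i j : ℤ) : ZMod (7 ^ (e + 1))) = ((7 ^ e * m : ℕ) : ZMod (7 ^ (e + 1))) →
      ∃ n : ℤ, N0 i j = 7 ^ e * n ∧ ((n : ℤ) : ZMod 7) = (m : ZMod 7) := by
    intro i j m hm
    have h4 : ((N0 i j - (7 ^ e * m : ℕ) : ℤ) : ZMod (7 ^ (e + 1))) = 0 := by
      rw [Int.cast_sub, hm]; simp
    rw [ZMod.intCast_zmod_eq_zero_iff_dvd] at h4
    obtain ⟨q, hq⟩ := h4
    refine ⟨m + 7 * q, ?_, ?_⟩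
    · push_cast at hq
      linear_combination hq
    · push_cast
      have : (7 : ZMod 7) = 0 := by decide
      rw [this]; ring
  have hh : ∀ i j, ((N0 i j : ℤ) : ZMod (7 ^ (e + 1))) =
    (N0.map (Int.castRingHom (ZMod (7 ^ (e + 1))))) i j := fun i j => rfl
  obtain ⟨n00, p00, s00⟩ := key 0 0 a (by rw [hh, h2]; rfl)
  obtain ⟨n01, p01, s01⟩ := key 0 1 a' (by rw [hh, h2]; rfl)
  obtain ⟨n02, p02, s02⟩ := key 0 2 a'' (by rw [hh, h2]; rfl)
  obtain ⟨n10, p10, s10⟩ := key 1 0 b (by rw [hh, h2]; rfl)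
  obtain ⟨n11, p11, s11⟩ := key 1 1 b' (by rw [hh, h2]; rfl)
  obtain ⟨n12, p12, s12⟩ := key 1 2 b'' (by rw [hh, h2]; rfl)
  obtain ⟨n20, p20, s20⟩ := key 2 0 c (by rw [hh, h2]; rfl)
  obtain ⟨n21, p21, s21⟩ := key 2 1 c' (by rw [hh, h2]; rfl)
  obtain ⟨n22, p22, s22⟩ := key 2 2 c'' (by rw [hh, h2]; rfl)
  refine ⟨!![n00, n01, n02; n10, n11, n12; n20, n21, n22], ?_, ?_⟩
  · have e1 : N0 = (7 ^ e : ℤ) • !![n00, n01, n02; n10, n11, n12; n20, n21, n22] := by
      ext i j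
      fin_cases i <;> fin_cases j <;> simp [p00, p01, p02, p10, p11, p12, p20, p21, p22]
    have e2 : SP ((7 : ℚ) ^ 4) w = ((7 : ℚ) ^ e) •
        (!![n00, n01, n02; n10, n11, n12; n20, n21, n22] : Matrix _ _ ℤ).map
          (Int.castRingHom ℚ) := by
      rw [← h3, e1]
      generalize (!![n00, n01, n02; n10, n11, n12; n20, n21, n22] : Matrix _ _ ℤ) = Q
      ext i j
      rw [Matrix.map_apply, Matrix.smul_apply, Matrix.smul_apply, Matrix.map_apply, smul_eq_mul,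
        smul_eq_mul]
      simp
    rw [q3, r3_SP h17, e2, hk, smul_smul, smul_smul]
    have e3 : (7 : ℚ) ^ ((k : ℤ) - e) * ((1 / 7) ^ k * 7 ^ e) = 1 := by
      rw [zpow_sub₀ (by norm_num), zpow_natCast, zpow_natCast, one_div, inv_pow]
      field_simp
    rw [mul_assoc] at *
    rw [e3, one_smul]
  · ext i j
    fin_cases i <;> fin_cases j <;>
      simp [s00, s01, s02, s10, s11, s12, s20, s21, s22]

end Pool.Agent.H360.JK
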