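import Pool.Agent.H360.JK.Words
import Pool.Agent.H360.JK.Res

/-!
# The kernel computations at `A = 1/7`
-/

set_option autoImplicit false

namespace Pool.Agent.H360.JK

open Finset LaurentPolynomial Pool.Agent.H891R2.Jones Pool.Agent.W639.RB Pool.Agent.Y463.SK
  Pool.Agent.Y463.MP Pool.Agent.Helper52_CV

/-- the commutator of two words -/
def cm (u v : List (Letter 4)) : List (Letter 4) := u ++ v ++ invW u ++ invW v

theorem toN_cm (u v : List (Letter 4)) : toN (cm u v) = cmL (toN u) (toN v) := by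
  simp only [cm, cmL, toN_append, toN_inv]

/-- the word `σ_0² σ_2⁻²` -/
def a2 : List (Letter 4) := [(true, 0), (true, 0), (false, 2), (false, 2)]

/-- the kernel elements modulo `2`, `3`, `5`, and their commutator -/
def g2 : List (Letter 4) := cm W2 a2
def g3 : List (Letter 4) := cm W3 a2
def g5 : List (Letter 4) := cm W5 a2
def xw : List (Letter 4) := cm (cm g2 g3) g5

theorem exs_x : exs (toN xw) = 3616 := by decide +kernel

theorem exs_x' : exs (invL (toN xw)) = 3616 := by decide +kernel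

theorem run_x : runN (7 ^ (2416 + 1)) (7 ^ 4) (toN xw) =
    ((7 ^ 2416 * 4, 7 ^ 2416 * 0, 7 ^ 2416 * 0), (7 ^ 2416 * 4, 7 ^ 2416 * 0, 7 ^ 2416 * 0),
      (7 ^ 2416 * 3, 7 ^ 2416 * 0, 7 ^ 2416 * 0)) := by decide +kernel

theorem run_x' : runN (7 ^ (2416 + 1)) (7 ^ 4) (invL (toN xw)) =
    ((7 ^ 2416 * 0, 7 ^ 2416 * 0, 7 ^ 2416 * 0), (7 ^ 2416 * 0, 7 ^ 2416 * 1, 7 ^ 2416 * 1),
      (7 ^ 2416 * 0, 7 ^ 2416 * 3, 7 ^ 2416 * 3)) := by decide +kernel

theorem res_x : Res 1200 !![4, 4, 3; 0, 0, 0; 0, 0, 0] (q3 (toN xw)) := by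
  have h := res_word _ _ _ exs_x run_x
  norm_num at h
  exact h

theorem res_x' : Res 1200 !![0, 0, 0; 0, 1, 3; 0, 1, 3] (q3 (invL (toN xw))) := by
  have h := res_word _ _ _ exs_x' run_x'
  norm_num at h
  exact h

end Pool.Agent.H360.JK
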