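import Pool.Agent.H360.JK.Fam

/-!
# Knots with Jones polynomial `1` modulo `(30 (1 - t^N))^k`
-/

set_option autoImplicit false

namespace Pool.Agent.H360.JK

open Finset LaurentPolynomial Pool.Agent.H891R2.Jones Pool.Agent.W639.RB Pool.Agent.Y463.SK
  Pool.Agent.Y463.MP Pool.Agent.Helper52_CV

/-! ### the words -/

/-- `σ_0 σ_1 σ_0⁻¹` and `σ_0² σ_1 σ_0⁻¹` -/
def gam : List (Letter 4) := [(true, 0), (true, 1), (false, 0)]
def c0 : List (Letter 4) := [(true, 0), (true, 0), (true, 1), (false, 0)]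

/-- the words of the construction -/
def zN (N : ℕ) : List (Letter 4) := cm (cm xw (tau N)) (gam ++ thW N 1 2 ++ invW gam)
def yN (N : ℕ) : List (Letter 4) := c0 ++ zN N ++ invW c0
def AN (N : ℕ) : ℕ → List (Letter 4)
  | 0 => cm (zN N) (yN N)
  | i + 1 => cm (cm (AN N i) (zN N)) (yN N)

/-- the modulus -/
noncomputable def mN (N : ℕ) : ℤ[T;T⁻¹] := (2 * 3 * 5 * yy N) * xx N

theorem st_z (N : ℕ) : St (mN N) (zN N) :=
  Wk.comm (Wk.comm wk_x (wk_two false 0)).wk ((wk_three 1 2 rfl).conj gam)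

theorem wk_y (N : ℕ) : Wk (mN N) (yN N) := (st_z N).wk.conj c0

theorem st_A (N i : ℕ) : St (mN N ^ (2 * i + 2)) (AN N i) := by
  induction i with
  | zero =>
    have := Wk.comm (st_z N).wk (wk_y N)
    rw [← pow_two] at this
    exact this
  | succ i ih =>
    have := Wk.comm (Wk.comm ih.wk (st_z N).wk).wk (wk_y N)
    have e : mN N ^ (2 * i + 2) * mN N * mN N = mN N ^ (2 * (i + 1) + 2) := by
      rw [← pow_succ, ← pow_succ]; congr 1
    rw [e] at this
    exact this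

/-! ### the representations of dimensions 1 and 2 -/

section small

variable {R : Type*} [CommRing R] {A A' : R}

theorem r2_cm' (h : A * A' = 1) (u v : List (Letter 4)) (hu : r2 A A' (toN u) = 1) :
    r2 A A' (toN (cm u v)) = 1 := by
  rw [toN_cm]; exact r2_cm h _ _ (Or.inl hu)

theorem r2_x (h : A * A' = 1) : r2 A A' (toN xw) = 1 := by
  have hg : ∀ w, r2 A A' (toN (cm w a2)) = 1 := fun w => by
    rw [toN_cm]; exact r2_cm h _ _ (Or.inr (r2_a2 h))
  exact r2_cm' h _ _ (r2_cm' h _ _ (hg _))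

theorem r2_A (h : A * A' = 1) (N i : ℕ) : r2 A A' (toN (AN N i)) = 1 := by
  have hz : r2 A A' (toN (zN N)) = 1 := r2_cm' h _ _ (r2_cm' h _ _ (r2_x h))
  induction i with
  | zero => exact r2_cm' h _ _ hz
  | succ i ih => exact r2_cm' h _ _ (r2_cm' h _ _ ih)

theorem r1_A (h : A * A' = 1) (N i : ℕ) : r1 A A' (toN (AN N i)) = 1 := by
  cases i <;> rw [AN, toN_cm] <;> exact r1_cm h _ _

end small

/-! ### the residues -/

theorem rr_z (N : ℕ) (hN : 1 ≤ N) : RR (4808 + 72 * N) (4808 + 72 * N)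
    !![2, 0, 5; 0, 0, 0; 0, 0, 0] !![0, 0, 0; 0, 2, 6; 0, 0, 0] (toN (zN N)) := by
  refine ((rr_x.cm (rr_tau N hN)).cm ((rr_th N hN).conj rr_gam)).cg ?_ ?_ ?_ ?_ ?_
  · ring
  · ring
  · decide +kernel
  · decide +kernel
  · rw [zN, toN_cm, toN_cm, toN_append, toN_append, toN_inv]
    rfl

theorem rr_y (N : ℕ) (hN : 1 ≤ N) : RR (4816 + 72 * N) (4816 + 72 * N)
    !![5, 2, 0; 5, 2, 0; 0, 0, 0] !![2, 5, 0; 2, 5, 0; 0, 0, 0] (toN (yN N)) := by
  refine ((rr_z N hN).conj rr_c0).cg ?_ ?_ ?_ ?_ ?_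
  · ring
  · ring
  · decide +kernel
  · decide +kernel
  · rw [yN, toN_append, toN_append, toN_inv]
    rfl

/-- the exponents -/
def eA (N : ℕ) : ℕ → ℤ
  | 0 => 2 * (4808 + 72 * N) + 2 * (4816 + 72 * N)
  | i + 1 => 2 * (2 * eA N i + 2 * (4808 + 72 * N)) + 2 * (4816 + 72 * N)

theorem rr_A (N : ℕ) (hN : 1 ≤ N) (i : ℕ) : RR (eA N i) (eA N i)
    !![2, 5, 0; 0, 0, 0; 0, 0, 0] !![0, 2, 6; 0, 2, 6; 0, 0, 0] (toN (AN N i)) := by
  induction i with
  | zero =>
    refine ((rr_z N hN).cm (rr_y N hN)).cg ?_ ?_ ?_ ?_ (toN_cm _ _).symm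
    · rw [eA]; ring
    · rw [eA]; ring
    · decide +kernel
    · decide +kernel
  | succ i ih =>
    refine ((ih.cm (rr_z N hN)).cm (rr_y N hN)).cg ?_ ?_ ?_ ?_ ?_
    · rw [eA]; ring
    · rw [eA]; ring
    · decide +kernel
    · decide +kernel
    · rw [AN, toN_cm, toN_cm]

theorem eA_pos (N i : ℕ) : 0 < eA N i := by
  induction i with
  | zero => rw [eA]; positivity
  | succ i ih => rw [eA]; positivity

theorem eA_mono (N : ℕ) : StrictMono (eA N) := by
  refine strictMono_nat_of_lt_succ fun i => ?_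
  have := eA_pos N i
  rw [eA]
  have h : (0 : ℤ) ≤ N := Int.natCast_nonneg N
  linarith

/-! ### the Jones polynomials -/

/-- evaluation at `A = 1/7` -/
noncomputable def e7 : ℤ[T;T⁻¹] →+* ℚ :=
  LaurentPolynomial.eval₂ (Int.castRingHom ℚ) (Units.mk0 (1 / 7) (by norm_num))

theorem e7_T1 : e7 (T 1) = 1 / 7 := by
  unfold e7
  rw [LaurentPolynomial.eval₂_T]
  simp

theorem e7_Tm1 : e7 (T (-1)) = 7 := by
  unfold e7
  rw [LaurentPolynomial.eval₂_T]
  simp

theorem m3_map {L L' : Type*} [CommRing L] [CommRing L'] (φ : L →+* L') (A A' : L)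
    (y : Co L) : (y.m3 A A').map φ = (y.map φ).m3 (φ A) (φ A') := by
  ext i j
  fin_cases i <;> fin_cases j <;> simp [Co.m3, Co.map]

theorem e7_r3 (w : List (Bool × ℕ)) : (r3 (T 1 : ℤ[T;T⁻¹]) (T (-1)) w).map e7 = q3 w := by
  rw [r3_co TT', m3_map, coW_map, q3, r3_co h17, map_sub, map_neg, map_pow, map_pow, e7_T1, e7_Tm1]

theorem fPoly_eq (u : List (Letter 4)) (hc : ∀ U, costS (toN u) U = 0) :
    (dia (braidClosure 4) (b0 ++ u)).fPoly = -T (-9) * F4 (zz (b0 ++ u)) := by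
  have hw : (dia (braidClosure 4) (b0 ++ u)).writhe = 3 := by
    have := writhe_dia (braidClosure 4) b0
    rw [writhe_b0] at this
    rw [writhe_dia, toN_append, costS_append, hc, add_zero]
    exact this.symm
  have hb : (dia (braidClosure 4) (b0 ++ u)).bracket = F4 (zz (b0 ++ u)) :=
    bracket_dia (by norm_num) _ _
  unfold Diagram.fPoly
  rw [hw, hb, if_neg (by decide)]
  norm_num

theorem trace_ne' (N : ℕ) (hN : 1 ≤ N) {i j : ℕ} (hij : i < j) :
    F4 (zz (b0 ++ AN N i)) ≠ F4 (zz (b0 ++ AN N j)) := by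
  intro h
  have key : ∀ i, e7 (dl * F4 (zz (b0 ++ AN N i))) =
      e7 (dl ^ 4 - 3 * dl ^ 2 + 1) * e7 (r1 (T 1 : ℤ[T;T⁻¹]) (T (-1)) (toN b0)) +
      e7 (dl ^ 2 - 1) * (q3 (toN b0) * q3 (toN (AN N i))).trace +
      e7 (r2 (T 1 : ℤ[T;T⁻¹]) (T (-1)) (toN b0)).trace := by
    intro i
    rw [F4_trace, toN_append, r1_append, r2_append, r1_A TT', r2_A TT', mul_one, mul_one, map_add,
      map_add, map_mul, map_mul]
    congr 3
    rw [r3_append, ← e7_r3, ← e7_r3, ← Matrix.map_mul, AddMonoidHom.map_trace]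
  have h1 := key i
  rw [h, key j] at h1
  have h2 : e7 (dl ^ 2 - 1) ≠ 0 := by
    unfold dl
    rw [map_sub, map_pow, map_sub, map_neg, map_pow, map_pow, map_one, e7_T1, e7_Tm1]
    norm_num
  have h3 : (q3 (toN b0) * q3 (toN (AN N i))).trace = (q3 (toN b0) * q3 (toN (AN N j))).trace := by
    have : e7 (dl ^ 2 - 1) * (q3 (toN b0) * q3 (toN (AN N i))).trace =
        e7 (dl ^ 2 - 1) * (q3 (toN b0) * q3 (toN (AN N j))).trace := by linarith
    exact mul_left_cancel₀ h2 this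
  refine (res_b0.mul (rr_A N hN i).fst).trace_ne (res_b0.mul (rr_A N hN j).fst) ?_ ?_ h3
  · have := eA_mono N hij
    linarith
  · decide +kernel

theorem A_inj (N : ℕ) (hN : 1 ≤ N) (k : ℕ) : Function.Injective
    (fun i : ℕ => (dia (braidClosure 4) (b0 ++ AN N (i + k))).fPoly) := by
  refine Function.Injective.of_lt_imp_ne fun i i' hi h => ?_
  rw [fPoly_eq _ (st_A N _).cost, fPoly_eq _ (st_A N _).cost] at h
  refine trace_ne' N hN (show i + k < i' + k by omega) ?_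
  have hT : (T 9 : ℤ[T;T⁻¹]) * T (-9) = 1 := by rw [← T_add]; norm_num
  linear_combination (-T 9) * h - (F4 (zz (b0 ++ AN N (i + k))) - F4 (zz (b0 ++ AN N (i' + k)))) * hT

/-! ### the result -/

theorem main (N k : ℕ) (hN : 1 ≤ N) :
    ∃ u : ℕ → List (Letter 4),
    (∀ i, IsPure (u i)) ∧
    (∀ i (O : Outer 4) (v w : List (Letter 4)),
      (30 * (1 - T (-4) ^ N) : ℤ[T;T⁻¹]) ^ k ∣
        (dia O (v ++ u i ++ w)).fPoly - (dia O (v ++ w)).fPoly) ∧
    (∀ i, (dia (braidClosure 4) (b0 ++ u i)).IsClosed ∧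
      (∀ x y, (permW (b0 ++ u i)).SameCycle x y) ∧
      (30 * (1 - T (-4) ^ N) : ℤ[T;T⁻¹]) ^ k ∣ (dia (braidClosure 4) (b0 ++ u i)).fPoly - 1) ∧
    Function.Injective (fun i => (dia (braidClosure 4) (b0 ++ u i)).fPoly) := by
  have hdvd : ∀ j : ℕ, k ≤ j → (30 * (1 - T (-4) ^ N) : ℤ[T;T⁻¹]) ^ k ∣ mN N ^ j := by
    intro j hj
    refine (pow_dvd_pow_of_dvd ?_ k).trans (pow_dvd_pow _ hj)
    have h := (dvd_one_sub N N ⟨6, by ring⟩).trans (dvd_yx N)
    obtain ⟨q, hq⟩ := h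
    refine ⟨q, ?_⟩
    unfold mN
    linear_combination 30 * hq
  have hmove : ∀ (i : ℕ) (O : Outer 4) (a b : List (Letter 4)),
      (30 * (1 - T (-4) ^ N) : ℤ[T;T⁻¹]) ^ k ∣
        (dia O (a ++ AN N (i + k) ++ b)).fPoly - (dia O (a ++ b)).fPoly := by
    intro i O a b
    obtain ⟨G, hG⟩ := fPoly_move (by norm_num) (st_A N (i + k)) O a b
    rw [hG, add_sub_cancel_left]
    exact Dvd.dvd.mul_right (hdvd _ (by omega)) _
  refine ⟨fun i => AN N (i + k), fun i => permW_one _ (st_A N (i + k)).perm, hmove,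
    fun i => ⟨closed_all _, knot_b0 _ (st_A N (i + k)).perm, ?_⟩, A_inj N hN k⟩
  have h := hmove i (braidClosure 4) b0 []
  rwa [List.append_nil, List.append_nil, fPoly_b0] at h

end Pool.Agent.H360.JK
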