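import Pool.Agent.H360.JK.Tl4

/-!
# The representations of dimensions 3, 2, 1 of the Temperley–Lieb algebra of four strands
-/

set_option autoImplicit false
set_option linter.unusedSimpArgs false

namespace Pool.Agent.H360.JK

open Finset LaurentPolynomial Pool.Agent.H891R2.Jones Pool.Agent.W639.RB Pool.Agent.Y463.SK
  Pool.Agent.Y463.MP Pool.Agent.Helper52_CV

section generic

variable {R : Type*} [CommRing R]

/-- the generators of the reduced Burau representation -/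
def Ea (A A' : R) : Matrix (Fin 3) (Fin 3) R := !![-A ^ 2 - A' ^ 2, A ^ 2, 0; 0, 0, 0; 0, 0, 0]
/-- the generators of the reduced Burau representation -/
def Eb (A A' : R) : Matrix (Fin 3) (Fin 3) R := !![0, 0, 0; A' ^ 2, -A ^ 2 - A' ^ 2, A ^ 2; 0, 0, 0]
/-- the generators of the reduced Burau representation -/
def Ec (A A' : R) : Matrix (Fin 3) (Fin 3) R := !![0, 0, 0; 0, 0, 0; 0, A' ^ 2, -A ^ 2 - A' ^ 2]

/-- the generators of the representation of dimension two -/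
def Ga (A A' : R) : Matrix (Fin 2) (Fin 2) R := !![-A ^ 2 - A' ^ 2, A ^ 2; 0, 0]
/-- the generators of the representation of dimension two -/
def Gb (A A' : R) : Matrix (Fin 2) (Fin 2) R := !![0, 0; A' ^ 2, -A ^ 2 - A' ^ 2]

variable {A A' : R}

theorem sq_one (h : A * A' = 1) : A ^ 2 * A' ^ 2 = 1 := by rw [← mul_pow, h, one_pow]
theorem sq_one' (h : A * A' = 1) : A' ^ 2 * A ^ 2 = 1 := by rw [mul_comm, sq_one h]

theorem tl3 (h : A * A' = 1) :
    TL4 (-A ^ 2 - A' ^ 2) (Ea A A') (Eb A A') (Ec A A') := by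
  have h1 := sq_one h
  have h2 := sq_one' h
  constructor <;> ext i j <;> fin_cases i <;> fin_cases j <;>
    simp [Ea, Eb, Ec, Matrix.mul_apply, Fin.sum_univ_three]
  all_goals try (ring_nf; done)
  all_goals simp only [h1, h2, one_mul]

theorem tl2 (h : A * A' = 1) :
    TL4 (-A ^ 2 - A' ^ 2) (Ga A A') (Gb A A') (Ga A A') := by
  have h1 := sq_one h
  have h2 := sq_one' h
  constructor <;> ext i j <;> fin_cases i <;> fin_cases j <;>
    simp [Ga, Gb, Matrix.mul_apply, Fin.sum_univ_two]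
  all_goals try (ring_nf; done)
  all_goals simp only [h1, h2, one_mul]

theorem tl1 (δ : R) : TL4 δ (0 : R) 0 0 := by
  constructor <;> simp

/-- the matrix with given coordinates -/
def Co.m3 (A A' : R) (y : Co R) : Matrix (Fin 3) (Fin 3) R :=
  !![y.o + y.a * (-A ^ 2 - A' ^ 2) + y.ab,
      y.a * A ^ 2 + y.ab * (A ^ 2 * (-A ^ 2 - A' ^ 2)) + y.abc * A ^ 2,
      y.ab * A ^ 4 + y.abc * (A ^ 4 * (-A ^ 2 - A' ^ 2));
    y.b * A' ^ 2 + y.ba * (A' ^ 2 * (-A ^ 2 - A' ^ 2)),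
      y.o + y.b * (-A ^ 2 - A' ^ 2) + y.ba + y.bc,
      y.b * A ^ 2 + y.bc * (A ^ 2 * (-A ^ 2 - A' ^ 2));
    y.cb * A' ^ 4 + y.cba * (A' ^ 4 * (-A ^ 2 - A' ^ 2)),
      y.c * A' ^ 2 + y.cb * (A' ^ 2 * (-A ^ 2 - A' ^ 2)) + y.cba * A' ^ 2,
      y.o + y.c * (-A ^ 2 - A' ^ 2) + y.cb]

/-- the matrix with given coordinates -/
def Co.m2 (A A' : R) (y : Co R) : Matrix (Fin 2) (Fin 2) R :=
  !![y.o + (y.a + y.c + y.ac * (-A ^ 2 - A' ^ 2) + y.abc + y.cba) * (-A ^ 2 - A' ^ 2) +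
        (y.ab + y.cb + y.acb * (-A ^ 2 - A' ^ 2)),
      (y.a + y.c + y.ac * (-A ^ 2 - A' ^ 2) + y.abc + y.cba) * A ^ 2 +
        (y.ab + y.cb + y.acb * (-A ^ 2 - A' ^ 2)) * (A ^ 2 * (-A ^ 2 - A' ^ 2));
    (y.b + y.bacb * (-A ^ 2 - A' ^ 2)) * A' ^ 2 +
        (y.ba + y.bc + y.bac * (-A ^ 2 - A' ^ 2)) * (A' ^ 2 * (-A ^ 2 - A' ^ 2)),
      y.o + (y.b + y.bacb * (-A ^ 2 - A' ^ 2)) * (-A ^ 2 - A' ^ 2) +
        (y.ba + y.bc + y.bac * (-A ^ 2 - A' ^ 2))]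

theorem mab3 (h : A * A' = 1) : Ea A A' * Eb A A' =
    !![1, A ^ 2 * (-A ^ 2 - A' ^ 2), A ^ 4; 0, 0, 0; 0, 0, 0] := by
  have h1 := sq_one h
  ext i j; fin_cases i <;> fin_cases j <;>
    simp [Ea, Eb, Matrix.mul_apply, Fin.sum_univ_three, h1] <;> ring

theorem mba3 (h : A * A' = 1) : Eb A A' * Ea A A' =
    !![0, 0, 0; A' ^ 2 * (-A ^ 2 - A' ^ 2), 1, 0; 0, 0, 0] := by
  have h1 := sq_one' h
  ext i j; fin_cases i <;> fin_cases j <;>
    simp [Ea, Eb, Matrix.mul_apply, Fin.sum_univ_three, h1]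

theorem mbc3 (h : A * A' = 1) : Eb A A' * Ec A A' =
    !![0, 0, 0; 0, 1, A ^ 2 * (-A ^ 2 - A' ^ 2); 0, 0, 0] := by
  have h1 := sq_one h
  ext i j; fin_cases i <;> fin_cases j <;>
    simp [Ec, Eb, Matrix.mul_apply, Fin.sum_univ_three, h1]

theorem mcb3 (h : A * A' = 1) : Ec A A' * Eb A A' =
    !![0, 0, 0; 0, 0, 0; A' ^ 4, A' ^ 2 * (-A ^ 2 - A' ^ 2), 1] := by
  have h1 := sq_one' h
  ext i j; fin_cases i <;> fin_cases j <;>
    simp [Ec, Eb, Matrix.mul_apply, Fin.sum_univ_three, h1] <;> ring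

theorem mac3 : Ea A A' * Ec A A' = 0 := by
  ext i j; fin_cases i <;> fin_cases j <;>
    simp [Ec, Ea, Matrix.mul_apply, Fin.sum_univ_three]

theorem lin3 (h : A * A' = 1) (y : Co R) : y.lin (Ea A A') (Eb A A') (Ec A A') = y.m3 A A' := by
  have h1 := sq_one h
  have h2 := sq_one' h
  have e1 : Ea A A' * Eb A A' * Ec A A' = !![0, A ^ 2, A ^ 4 * (-A ^ 2 - A' ^ 2); 0, 0, 0; 0, 0, 0] := by
    rw [mab3 h]
    ext i j; fin_cases i <;> fin_cases j <;>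
      simp [Ec, Matrix.mul_apply, Fin.sum_univ_three]
    linear_combination A ^ 2 * h1
  have e2 : Ec A A' * Eb A A' * Ea A A' = !![0, 0, 0; 0, 0, 0; A' ^ 4 * (-A ^ 2 - A' ^ 2), A' ^ 2, 0] := by
    rw [mcb3 h]
    ext i j; fin_cases i <;> fin_cases j <;>
      simp [Ea, Matrix.mul_apply, Fin.sum_univ_three]
    linear_combination A' ^ 2 * h1
  have e3 : Eb A A' * Ea A A' * Ec A A' = 0 := by rw [mul_assoc, mac3, mul_zero]
  have e4 : Ea A A' * Ec A A' * Eb A A' = 0 := by rw [mac3, zero_mul]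
  have e5 : Eb A A' * Ea A A' * Ec A A' * Eb A A' = 0 := by rw [e3, zero_mul]
  unfold Co.lin
  rw [e5, e4, e3, e2, e1, mab3 h, mba3 h, mbc3 h, mcb3 h, mac3]
  ext i j; fin_cases i <;> fin_cases j <;>
    simp [Ea, Eb, Ec, Co.m3]

theorem lin2 (h : A * A' = 1) (y : Co R) : y.lin (Ga A A') (Gb A A') (Ga A A') = y.m2 A A' := by
  have h1 := sq_one h
  have h2 := sq_one' h
  have H := tl2 h
  have e1 : Ga A A' * Gb A A' * Ga A A' = Ga A A' := H.aba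
  have e2 : Gb A A' * Ga A A' * Ga A A' = (-A ^ 2 - A' ^ 2) • (Gb A A' * Ga A A') := by
    rw [mul_assoc, H.aa, mul_smul_comm]
  have e3 : Gb A A' * Ga A A' * Ga A A' * Gb A A' = (-A ^ 2 - A' ^ 2) • Gb A A' := by
    rw [e2, smul_mul_assoc, H.bab]
  have e4 : Ga A A' * Ga A A' * Gb A A' = (-A ^ 2 - A' ^ 2) • (Ga A A' * Gb A A') := by
    rw [H.aa, smul_mul_assoc]
  have f1 : Ga A A' * Gb A A' = !![1, A ^ 2 * (-A ^ 2 - A' ^ 2); 0, 0] := by
    ext i j; fin_cases i <;> fin_cases j <;>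
      simp [Ga, Gb, Matrix.mul_apply, Fin.sum_univ_two, h1]
  have f2 : Gb A A' * Ga A A' = !![0, 0; A' ^ 2 * (-A ^ 2 - A' ^ 2), 1] := by
    ext i j; fin_cases i <;> fin_cases j <;>
      simp [Ga, Gb, Matrix.mul_apply, Fin.sum_univ_two, h2]
  unfold Co.lin
  rw [e3, e2, e1, e4, H.aa, f1, f2]
  ext i j; fin_cases i <;> fin_cases j <;>
    simp [Ga, Gb, Co.m2] <;> ring

theorem lin1 (y : Co R) : y.lin (0 : R) 0 0 = y.o := by
  simp [Co.lin]

/-- uniqueness of the coordinates: `y.m3 = 1`, `y.m2 = 1`, `y.o = 1` only for the unit -/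
theorem co_unique [IsDomain R] (h : A * A' = 1) (hd0 : -A ^ 2 - A' ^ 2 ≠ (0 : R))
    (hd2 : (-A ^ 2 - A' ^ 2) ^ 2 - 2 ≠ (0 : R)) (hd1 : (-A ^ 2 - A' ^ 2) ^ 2 - 1 ≠ (0 : R))
    (y : Co R) (ho : y.o = 1) (h3 : y.m3 A A' = 1) (h2 : y.m2 A A' = 1) : y = Co.one := by
  have hA : A ≠ 0 := by rintro rfl; simp at h
  have hA' : A' ≠ 0 := by rintro rfl; simp at h
  have hs := sq_one h
  have key : ∀ a b c : R, a * (-A ^ 2 - A' ^ 2) + b = 0 →
      a + b * (-A ^ 2 - A' ^ 2) + c = 0 → b + c * (-A ^ 2 - A' ^ 2) = 0 → a = 0 ∧ b = 0 ∧ c = 0 := by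
    intro a b c k1 k2 k3
    have hb : b * ((-A ^ 2 - A' ^ 2) ^ 2 - 2) = 0 := by
      linear_combination (-A ^ 2 - A' ^ 2) * k2 - k1 - k3
    have hb0 : b = 0 := (mul_eq_zero.1 hb).resolve_right hd2
    rw [hb0, add_zero] at k1
    rw [hb0, zero_add] at k3
    exact ⟨(mul_eq_zero.1 k1).resolve_right hd0, hb0, (mul_eq_zero.1 k3).resolve_right hd0⟩
  have q00 := congrFun (congrFun h3 0) 0
  have q01 := congrFun (congrFun h3 0) 1
  have q02 := congrFun (congrFun h3 0) 2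
  have q10 := congrFun (congrFun h3 1) 0
  have q11 := congrFun (congrFun h3 1) 1
  have q12 := congrFun (congrFun h3 1) 2
  have q20 := congrFun (congrFun h3 2) 0
  have q21 := congrFun (congrFun h3 2) 1
  have q22 := congrFun (congrFun h3 2) 2
  simp [Co.m3, ho] at q00 q01 q02 q10 q11 q12 q20 q21 q22
  obtain ⟨ra, rab, rabc⟩ := key y.a y.ab y.abc (by linear_combination q00)
    (by linear_combination A' ^ 2 * q01 - (y.a + y.ab * (-A ^ 2 - A' ^ 2) + y.abc) * hs)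
    (by linear_combination A' ^ 4 * q02 -
      (y.ab + y.abc * (-A ^ 2 - A' ^ 2)) * (A ^ 2 * A' ^ 2 + 1) * hs)
  obtain ⟨rba, rb, rbc⟩ := key y.ba y.b y.bc
    (by linear_combination A ^ 2 * q10 - (y.b + y.ba * (-A ^ 2 - A' ^ 2)) * hs)
    (by linear_combination q11)
    (by linear_combination A' ^ 2 * q12 - (y.b + y.bc * (-A ^ 2 - A' ^ 2)) * hs)
  obtain ⟨rc, rcb, rcba⟩ := key y.c y.cb y.cba (by linear_combination q22)
    (by linear_combination A ^ 2 * q21 - (y.c + y.cb * (-A ^ 2 - A' ^ 2) + y.cba) * hs)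
    (by linear_combination A ^ 4 * q20 -
      (y.cb + y.cba * (-A ^ 2 - A' ^ 2)) * (A ^ 2 * A' ^ 2 + 1) * hs)
  have p00 := congrFun (congrFun h2 0) 0
  have p01 := congrFun (congrFun h2 0) 1
  have p10 := congrFun (congrFun h2 1) 0
  have p11 := congrFun (congrFun h2 1) 1
  simp [Co.m2, ho, ra, rab, rabc, rba, rb, rbc, rc, rcb, rcba] at p00 p01 p10 p11
  have key2 : ∀ u v : R, u * (-A ^ 2 - A' ^ 2) + v = 0 → u + v * (-A ^ 2 - A' ^ 2) = 0 →
      u = 0 ∧ v = 0 := by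
    intro u v k1 k2
    have hu : u * ((-A ^ 2 - A' ^ 2) ^ 2 - 1) = 0 := by
      linear_combination (-A ^ 2 - A' ^ 2) * k1 - k2
    have hu0 : u = 0 := (mul_eq_zero.1 hu).resolve_right hd1
    rw [hu0, zero_mul, zero_add] at k1
    exact ⟨hu0, k1⟩
  obtain ⟨u1, v1⟩ := key2 (y.ac * (-A ^ 2 - A' ^ 2)) (y.acb * (-A ^ 2 - A' ^ 2))
    (by linear_combination p00)
    (by linear_combination A' ^ 2 * p01 - (y.ac * (-A ^ 2 - A' ^ 2) +
      y.acb * (-A ^ 2 - A' ^ 2) * (-A ^ 2 - A' ^ 2)) * hs)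
  obtain ⟨u2, v2⟩ := key2 (y.bacb * (-A ^ 2 - A' ^ 2)) (y.bac * (-A ^ 2 - A' ^ 2))
    (by linear_combination p11)
    (by linear_combination A ^ 2 * p10 - (y.bacb * (-A ^ 2 - A' ^ 2) +
      y.bac * (-A ^ 2 - A' ^ 2) * (-A ^ 2 - A' ^ 2)) * hs)
  have w1 := (mul_eq_zero.1 u1).resolve_right hd0
  have w2 := (mul_eq_zero.1 v1).resolve_right hd0
  have w3 := (mul_eq_zero.1 u2).resolve_right hd0
  have w4 := (mul_eq_zero.1 v2).resolve_right hd0
  cases y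
  simp only at ho ra rab rabc rba rb rbc rc rcb rcba w1 w2 w3 w4
  subst ho ra rab rabc rba rb rbc rc rcb rcba w1 w2 w3 w4
  rfl

end generic

end Pool.Agent.H360.JK
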