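import Pool.Agent.H360.JK.Trc

/-!
# Fast computations of products of Burau matrices
-/

set_option autoImplicit false

namespace Pool.Agent.H360.JK

open Finset LaurentPolynomial Pool.Agent.H891R2.Jones Pool.Agent.W639.RB Pool.Agent.Y463.SK
  Pool.Agent.Y463.MP Pool.Agent.Helper52_CV

section generic

variable {R : Type*} [CommRing R]

/-- the matrices of the letters, scaled by `1` (positive) and `t` (negative) -/
def SS (t : R) (x : Bool × ℕ) : Matrix (Fin 3) (Fin 3) R :=
  match x with
  | (true, 0) => !![-t, 1, 0; 0, 1, 0; 0, 0, 1]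
  | (true, 1) => !![1, 0, 0; t, -t, 1; 0, 0, 1]
  | (true, _) => !![1, 0, 0; 0, 1, 0; 0, t, -t]
  | (false, 0) => !![-1, 1, 0; 0, t, 0; 0, 0, t]
  | (false, 1) => !![t, 0, 0; t, -1, 1; 0, 0, t]
  | (false, _) => !![t, 0, 0; 0, t, 0; 0, t, -1]

/-- the exponents of the scaling -/
def ex (x : Bool × ℕ) : ℕ := if x.1 then 1 else 3

/-- the exponent of the scaling of a word -/
def exs (w : List (Bool × ℕ)) : ℕ := (w.map ex).sum

/-- the product of the scaled matrices -/
def SP (t : R) (w : List (Bool × ℕ)) : Matrix (Fin 3) (Fin 3) R := (w.map (SS t)).prod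

theorem SP_append (t : R) (v w : List (Bool × ℕ)) : SP t (v ++ w) = SP t v * SP t w := by
  simp [SP]

variable {A A' : R}

theorem ltr_SS (h : A * A' = 1) (x : Bool × ℕ) :
    ltr A A' (seq3 (Ea A A') (Eb A A') (Ec A A')) x = A ^ ex x • SS (A' ^ 4) x := by
  obtain ⟨b, i⟩ := x
  have h1 : A' * A ^ 2 = A := by linear_combination A * h
  have h2 : A * A' ^ 2 = A' := by linear_combination A' * h
  have h3 : A * A' ^ 4 = A' ^ 3 := by linear_combination A' ^ 3 * h
  have h4 : A ^ 3 * A' ^ 4 = A' := by linear_combination (A ^ 2 * A' ^ 3 + A * A' ^ 2 + A') * h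
  rcases i with _ | _ | i <;> cases b <;> ext j k <;> fin_cases j <;> fin_cases k <;>
    simp [ltr, seq3, Ea, Eb, Ec, ex, SS] <;>
    first
    | linear_combination (0 : R) * h
    | linear_combination h1
    | linear_combination -h1
    | linear_combination h2
    | linear_combination -h2
    | linear_combination h3
    | linear_combination -h3
    | linear_combination h4
    | linear_combination -h4
    | linear_combination h1 - h3
    | linear_combination h3 - h1
    | linear_combination h1 + h3
    | linear_combination -h1 - h3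
    | linear_combination h2 - h4

theorem r3_SP (h : A * A' = 1) (w : List (Bool × ℕ)) : r3 A A' w = A ^ exs w • SP (A' ^ 4) w := by
  induction w with
  | nil => simp [r3, wd, exs, SP]
  | cons x w ih =>
    have e1 : r3 A A' (x :: w) = ltr A A' (seq3 (Ea A A') (Eb A A') (Ec A A')) x * r3 A A' w := by
      simp [r3, wd]
    rw [e1, ih, ltr_SS h]
    simp only [exs, SP, List.map_cons, List.sum_cons, List.prod_cons, pow_add, smul_mul_assoc,
      mul_smul_comm, smul_smul]
    rw [mul_comm (A ^ ex x)]

/-! ### the engine -/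

/-- operations of a machine -/
structure Eng (X : Type) where
  sub : X → X → X
  sh : X → X
  frc : X → (X → X × X × X) → X × X × X

/-- one step -/
def Eng.st {X : Type} (E : Eng X) (x : Bool × ℕ) (a b c : X) (k : X → X → X → X × X × X) :
    X × X × X :=
  match x with
  | (true, 0) => E.frc (E.sub b (E.sh a)) fun a' => k a' b c
  | (true, 1) => E.frc (E.sub c (E.sh (E.sub b a))) fun b' => k a b' c
  | (true, _) => E.frc (E.sh (E.sub b c)) fun c' => k a b c'
  | (false, 0) => E.frc (E.sub b a) fun a' => E.frc (E.sh b) fun b' => E.frc (E.sh c) fun c' =>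
      k a' b' c'
  | (false, 1) => E.frc (E.sh a) fun a' => E.frc (E.sub a' (E.sub b c)) fun b' =>
      E.frc (E.sh c) fun c' => k a' b' c'
  | (false, _) => E.frc (E.sh a) fun a' => E.frc (E.sh b) fun b' => E.frc (E.sub b' c) fun c' =>
      k a' b' c'

/-- the run along a word -/
def Eng.go {X : Type} (E : Eng X) : List (Bool × ℕ) → X → X → X → X × X × X
  | [], a, b, c => (a, b, c)
  | x :: w, a, b, c => E.st x a b c (E.go w)

/-- the meaning of a machine -/
structure Eng.Val {X : Type} (E : Eng X) (t : R) (val : X → R) : Prop where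
  sub : ∀ a b, val (E.sub a b) = val a - val b
  sh : ∀ a, val (E.sh a) = t * val a
  frc : ∀ a k, E.frc a k = k a

theorem Eng.Val.go {X : Type} {E : Eng X} {t : R} {val : X → R} (H : E.Val t val)
    (w : List (Bool × ℕ)) : ∀ a b c : X,
    ![val (E.go w a b c).1, val (E.go w a b c).2.1, val (E.go w a b c).2.2] =
      (SP t w.reverse).mulVec ![val a, val b, val c] := by
  induction w with
  | nil => intro a b c; simp [Eng.go, SP]
  | cons x w ih =>
    intro a b c
    have e : SP t (x :: w).reverse = SP t w.reverse * SS t x := by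
      rw [List.reverse_cons, SP_append]; simp [SP]
    have key : ∀ a' b' c' : X, E.go (x :: w) a b c = E.go w a' b' c' →
        ![val a', val b', val c'] = (SS t x).mulVec ![val a, val b, val c] →
        ![val (E.go (x :: w) a b c).1, val (E.go (x :: w) a b c).2.1,
          val (E.go (x :: w) a b c).2.2] =
        (SP t (x :: w).reverse).mulVec ![val a, val b, val c] := by
      intro a' b' c' h1 h2
      rw [h1, ih, h2, e, Matrix.mulVec_mulVec]
    obtain ⟨p, i⟩ := x
    rcases i with _ | _ | i <;> cases p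
    · refine key (E.sub b a) (E.sh b) (E.sh c) (by simp only [Eng.go, Eng.st, H.frc]) ?_
      funext j; fin_cases j <;>
        simp [SS, Matrix.mulVec, dotProduct, Fin.sum_univ_three, H.sub, H.sh] <;> ring
    · refine key (E.sub b (E.sh a)) b c (by simp only [Eng.go, Eng.st, H.frc]) ?_
      funext j; fin_cases j <;>
        simp [SS, Matrix.mulVec, dotProduct, Fin.sum_univ_three, H.sub, H.sh] <;> ring
    · refine key (E.sh a) (E.sub (E.sh a) (E.sub b c)) (E.sh c) (by simp only [Eng.go, Eng.st, H.frc]) ?_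
      funext j; fin_cases j <;>
        simp [SS, Matrix.mulVec, dotProduct, Fin.sum_univ_three, H.sub, H.sh] <;> ring
    · refine key a (E.sub c (E.sh (E.sub b a))) c (by simp only [Eng.go, Eng.st, H.frc]) ?_
      funext j; fin_cases j <;>
        simp [SS, Matrix.mulVec, dotProduct, Fin.sum_univ_three, H.sub, H.sh] <;> ring
    · refine key (E.sh a) (E.sh b) (E.sub (E.sh b) c) (by simp only [Eng.go, Eng.st, H.frc]) ?_
      funext j; fin_cases j <;>
        simp [SS, Matrix.mulVec, dotProduct, Fin.sum_univ_three, H.sub, H.sh] <;> ring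
    · refine key a b (E.sh (E.sub b c)) (by simp only [Eng.go, Eng.st, H.frc]) ?_
      funext j; fin_cases j <;>
        simp [SS, Matrix.mulVec, dotProduct, Fin.sum_univ_three, H.sub, H.sh] <;> ring

end generic

/-! ### numbers modulo `M` -/

/-- force the evaluation -/
def frcN {α : Type} (n : ℕ) (k : ℕ → α) : α :=
  match n with
  | 0 => k 0
  | m + 1 => k (m + 1)

theorem frcN_eq {α : Type} (n : ℕ) (k : ℕ → α) : frcN n k = k n := by
  cases n <;> rfl

/-- the machine of the numbers modulo `M` -/
def EN (M t : ℕ) : Eng ℕ where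
  sub a b := (a + (M - 1) * b) % M
  sh a := (t * a) % M
  frc := frcN

theorem EN_val (M t : ℕ) (hM : 1 ≤ M) :
    (EN M t).Val (t : ZMod M) (fun a : ℕ => (a : ZMod M)) where
  sub a b := by
    show (((a + (M - 1) * b) % M : ℕ) : ZMod M) = _
    rw [ZMod.natCast_mod, Nat.cast_add, Nat.cast_mul, Nat.cast_sub hM, ZMod.natCast_self]
    push_cast
    ring
  sh a := by
    show (((t * a) % M : ℕ) : ZMod M) = _
    rw [ZMod.natCast_mod, Nat.cast_mul]
  frc := frcN_eq

/-- the three columns of the product of a word -/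
def runN (M t : ℕ) (w : List (Bool × ℕ)) : (ℕ × ℕ × ℕ) × (ℕ × ℕ × ℕ) × (ℕ × ℕ × ℕ) :=
  ((EN M t).go w.reverse 1 0 0, (EN M t).go w.reverse 0 1 0, (EN M t).go w.reverse 0 0 1)

theorem col_eq {R : Type*} [CommRing R] (P : Matrix (Fin 3) (Fin 3) R) {a b c : R} (j : Fin 3)
    (h : ![a, b, c] = P.mulVec (fun i => if i = j then 1 else 0)) :
    P 0 j = a ∧ P 1 j = b ∧ P 2 j = c := by
  have h0 := congrFun h 0
  have h1 := congrFun h 1
  have h2 := congrFun h 2
  simp [Matrix.mulVec, dotProduct] at h0 h1 h2
  exact ⟨h0.symm, h1.symm, h2.symm⟩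

theorem runN_eq (M t : ℕ) (hM : 1 ≤ M) (w : List (Bool × ℕ)) {a b c a' b' c' a'' b'' c'' : ℕ}
    (h : runN M t w = ((a, b, c), (a', b', c'), (a'', b'', c''))) :
    SP (t : ZMod M) w = !![(a : ZMod M), a', a''; b, b', b''; c, c', c''] := by
  have H := EN_val M t hM
  unfold runN at h
  have k1 := congrArg Prod.fst h
  have k2 := congrArg (fun z => z.2.1) h
  have k3 := congrArg (fun z => z.2.2) h
  simp only at k1 k2 k3
  have h1 := H.go w.reverse 1 0 0
  have h2 := H.go w.reverse 0 1 0
  have h3 := H.go w.reverse 0 0 1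
  rw [k1, List.reverse_reverse] at h1
  rw [k2, List.reverse_reverse] at h2
  rw [k3, List.reverse_reverse] at h3
  obtain ⟨x1, x2, x3⟩ := col_eq (SP (t : ZMod M) w) (a := a) (b := b) (c := c) 0
    (h1.trans (congrArg _ (by funext i; fin_cases i <;> simp)))
  obtain ⟨y1, y2, y3⟩ := col_eq (SP (t : ZMod M) w) (a := a') (b := b') (c := c') 1
    (h2.trans (congrArg _ (by funext i; fin_cases i <;> simp)))
  obtain ⟨z1, z2, z3⟩ := col_eq (SP (t : ZMod M) w) (a := a'') (b := b'') (c := c'') 2
    (h3.trans (congrArg _ (by funext i; fin_cases i <;> simp)))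
  ext i j
  fin_cases i <;> fin_cases j <;> simp [x1, x2, x3, y1, y2, y3, z1, z2, z3]

/-! ### polynomials modulo `p` -/

/-- force the evaluation of a list -/
def frcL {α : Type} : List ℕ → (List ℕ → α) → α
  | [], k => k []
  | a :: l, k => frcL l fun l' => frcN a fun a' => k (a' :: l')

theorem frcL_eq {α : Type} (l : List ℕ) : ∀ k : List ℕ → α, frcL l k = k l := by
  induction l with
  | nil => intro k; rfl
  | cons a l ih => intro k; rw [frcL, ih, frcN_eq]

/-- subtraction modulo `p` -/
def subL (p : ℕ) : List ℕ → List ℕ → List ℕ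
  | l, [] => l
  | [], b :: l => ((p - 1) * b % p) :: subL p [] l
  | a :: l, b :: l' => ((a + (p - 1) * b) % p) :: subL p l l'

/-- the value of a polynomial -/
def pev {R : Type*} [CommRing R] (t : R) : List ℕ → R
  | [] => 0
  | a :: l => (a : R) + t * pev t l

section pol

variable {R : Type*} [CommRing R] {t : R} {p : ℕ}

theorem cast_mod (hp : (p : R) = 0) (n : ℕ) : ((n % p : ℕ) : R) = (n : R) := by
  have h := congrArg (Nat.cast : ℕ → R) (Nat.mod_add_div n p)
  rw [Nat.cast_add, Nat.cast_mul, hp, zero_mul, add_zero] at h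
  exact h

theorem pev_sub (hp : (p : R) = 0) (h1 : 1 ≤ p) (l' : List ℕ) : ∀ l : List ℕ,
    pev t (subL p l l') = pev t l - pev t l' := by
  induction l' with
  | nil => intro l; cases l <;> simp [subL, pev]
  | cons b l' ih =>
    intro l
    cases l with
    | nil =>
      show (((p - 1) * b % p : ℕ) : R) + t * pev t (subL p [] l') = _
      rw [cast_mod hp, ih, Nat.cast_mul, Nat.cast_sub h1, hp]
      simp only [pev]
      push_cast
      ring
    | cons a l =>
      show (((a + (p - 1) * b) % p : ℕ) : R) + t * pev t (subL p l l') = _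
      rw [cast_mod hp, ih, Nat.cast_add, Nat.cast_mul, Nat.cast_sub h1, hp]
      simp only [pev]
      push_cast
      ring

/-- the machine of the polynomials modulo `p` -/
def EP (p : ℕ) : Eng (List ℕ) where
  sub := subL p
  sh l := 0 :: l
  frc := frcL

theorem EP_val (hp : (p : R) = 0) (h1 : 1 ≤ p) : (EP p).Val t (pev t) where
  sub a b := pev_sub hp h1 b a
  sh a := by
    show ((0 : ℕ) : R) + t * pev t a = _
    simp
  frc := frcL_eq

/-- test for zero -/
def isz (l : List ℕ) : Bool := l.all fun a => a == 0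

theorem pev_isz (l : List ℕ) (h : isz l = true) : pev t l = 0 := by
  induction l with
  | nil => rfl
  | cons a l ih =>
    unfold isz at h ih
    rw [List.all_cons, Bool.and_eq_true] at h
    rw [pev, ih h.2]
    have : a = 0 := by simpa using h.1
    rw [this]
    simp

/-- the monomial -/
def mono (n : ℕ) : List ℕ := List.replicate n 0 ++ [1]

theorem pev_mono (n : ℕ) : pev t (mono n) = t ^ n := by
  induction n with
  | zero => simp [mono, pev]
  | succ n ih =>
    have e : mono (n + 1) = 0 :: mono n := by simp [mono, List.replicate_succ]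
    rw [e, pev, ih, pow_succ']
    simp

/-- the test that a word gives `t^n` times the unit matrix -/
def chk (p n : ℕ) (w : List (Bool × ℕ)) : Bool :=
  (match (EP p).go w [1] [] [] with
    | (a, b, c) => isz (subL p a (mono n)) && isz b && isz c) &&
  (match (EP p).go w [] [1] [] with
    | (a, b, c) => isz a && isz (subL p b (mono n)) && isz c) &&
  (match (EP p).go w [] [] [1] with
    | (a, b, c) => isz a && isz b && isz (subL p c (mono n)))

theorem SP_chk (hp : (p : R) = 0) (h1 : 1 ≤ p) (n : ℕ) (w : List (Bool × ℕ))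
    (h : chk p n w.reverse = true) : SP t w = t ^ n • (1 : Matrix (Fin 3) (Fin 3) R) := by
  have H := EP_val (t := t) hp h1
  unfold chk at h
  rw [Bool.and_eq_true, Bool.and_eq_true] at h
  obtain ⟨⟨k1, k2⟩, k3⟩ := h
  have h1' := H.go w.reverse [1] [] []
  have h2 := H.go w.reverse [] [1] []
  have h3 := H.go w.reverse [] [] [1]
  rw [List.reverse_reverse] at h1' h2 h3
  have key : ∀ l : List ℕ, isz (subL p l (mono n)) = true → pev t l = t ^ n := by
    intro l hl
    have := pev_isz (t := t) _ hl
    rw [pev_sub hp h1, pev_mono] at this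
    exact sub_eq_zero.1 this
  generalize (EP p).go w.reverse [1] [] [] = z at k1 h1'
  generalize (EP p).go w.reverse [] [1] [] = z' at k2 h2
  generalize (EP p).go w.reverse [] [] [1] = z'' at k3 h3
  obtain ⟨a, b, c⟩ := z
  obtain ⟨a', b', c'⟩ := z'
  obtain ⟨a'', b'', c''⟩ := z''
  simp only [Bool.and_eq_true] at k1 k2 k3
  simp only at h1' h2 h3
  rw [key _ k1.1.1, pev_isz _ k1.1.2, pev_isz _ k1.2] at h1'
  rw [pev_isz _ k2.1.1, key _ k2.1.2, pev_isz _ k2.2] at h2
  rw [pev_isz _ k3.1.1, pev_isz _ k3.1.2, key _ k3.2] at h3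
  obtain ⟨x1, x2, x3⟩ := col_eq (SP t w) 0
    (h1'.trans (congrArg _ (by funext i; fin_cases i <;> simp [pev])))
  obtain ⟨y1, y2, y3⟩ := col_eq (SP t w) 1
    (h2.trans (congrArg _ (by funext i; fin_cases i <;> simp [pev])))
  obtain ⟨z1, z2, z3⟩ := col_eq (SP t w) 2
    (h3.trans (congrArg _ (by funext i; fin_cases i <;> simp [pev])))
  ext i j
  fin_cases i <;> fin_cases j <;> simp [x1, x2, x3, y1, y2, y3, z1, z2, z3]

end pol

end Pool.Agent.H360.JK
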