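import Pool.Graph.R_pool_sql_team_seeded_620a6dc7.Helper52_CV.Fin

/-!
# Coordinates in a Temperley–Lieb algebra of four strands, and the trace formula for closed 4-braids
-/

set_option autoImplicit false

namespace Pool.Agent.H360.JK

open Finset LaurentPolynomial Pool.Agent.H891R2.Jones Pool.Agent.W639.RB Pool.Agent.Y463.SK
  Pool.Agent.Y463.MP Pool.Agent.Helper52_CV

section generic

variable {L B : Type*} [CommRing L] [Ring B] [Algebra L B]

/-- the relations -/
structure TL4 (δ : L) (a b c : B) : Prop where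
  aa : a * a = δ • a
  bb : b * b = δ • b
  cc : c * c = δ • c
  aba : a * b * a = a
  bab : b * a * b = b
  bcb : b * c * b = b
  cbc : c * b * c = c
  ca : c * a = a * c

/-- fourteen coefficients -/
structure Co (L : Type*) where
  (o a b c ab ba bc cb ac abc cba bac acb bacb : L)

/-- the element with given coefficients -/
def Co.lin (y : Co L) (a b c : B) : B :=
  y.o • (1 : B) + y.a • a + y.b • b + y.c • c + y.ab • (a * b) + y.ba • (b * a) + y.bc • (b * c) +
    y.cb • (c * b) + y.ac • (a * c) + y.abc • (a * b * c) + y.cba • (c * b * a) +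
    y.bac • (b * a * c) + y.acb • (a * c * b) + y.bacb • (b * a * c * b)

/-- the coefficients of `1` -/
def Co.one : Co L := ⟨1, 0, 0, 0, 0, 0, 0, 0, 0, 0, 0, 0, 0, 0⟩

/-- the product with `a` -/
def Co.mA (δ : L) (y : Co L) : Co L where
  o := 0
  a := y.o + δ * y.a + y.ba
  b := 0
  c := 0
  ab := y.b + δ * y.ab
  ba := 0
  bc := 0
  cb := 0
  ac := y.c + δ * y.ac + y.cba + y.bac
  abc := y.bc + δ * y.abc
  cba := 0
  bac := 0
  acb := y.cb + δ * y.acb + y.bacb
  bacb := 0

/-- the product with `b` -/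
def Co.mB (δ : L) (y : Co L) : Co L where
  o := 0
  a := 0
  b := y.o + δ * y.b + y.ab + y.cb
  c := 0
  ab := 0
  ba := y.a + δ * y.ba + y.cba
  bc := y.c + δ * y.bc + y.abc
  cb := 0
  ac := 0
  abc := 0
  cba := 0
  bac := y.ac + δ * y.bac
  acb := 0
  bacb := y.acb + δ * y.bacb

/-- the product with `c` -/
def Co.mC (δ : L) (y : Co L) : Co L where
  o := 0
  a := 0
  b := 0
  c := y.o + δ * y.c + y.bc
  ab := 0
  ba := 0
  bc := 0
  cb := y.b + δ * y.cb
  ac := y.a + δ * y.ac + y.abc + y.bac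
  abc := 0
  cba := y.ba + δ * y.cba
  bac := 0
  acb := y.ab + δ * y.acb + y.bacb
  bacb := 0

/-- linear combination -/
def Co.comb (s s' : L) (y y' : Co L) : Co L where
  o := s * y.o + s' * y'.o
  a := s * y.a + s' * y'.a
  b := s * y.b + s' * y'.b
  c := s * y.c + s' * y'.c
  ab := s * y.ab + s' * y'.ab
  ba := s * y.ba + s' * y'.ba
  bc := s * y.bc + s' * y'.bc
  cb := s * y.cb + s' * y'.cb
  ac := s * y.ac + s' * y'.ac
  abc := s * y.abc + s' * y'.abc
  cba := s * y.cba + s' * y'.cba
  bac := s * y.bac + s' * y'.bac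
  acb := s * y.acb + s' * y'.acb
  bacb := s * y.bacb + s' * y'.bacb

variable {δ : L} {a b c : B}

theorem Co.lin_one : (Co.one : Co L).lin a b c = 1 := by
  simp [Co.one, Co.lin]

theorem Co.lin_comb (s s' : L) (y y' : Co L) :
    (Co.comb s s' y y').lin a b c = s • y.lin a b c + s' • y'.lin a b c := by
  simp only [Co.comb, Co.lin]
  module

theorem TL4.mA (h : TL4 δ a b c) (y : Co L) : (y.mA δ).lin a b c = a * y.lin a b c := by
  have e1 : a * (b * a) = a := by rw [← mul_assoc, h.aba]
  have e2 : a * (a * b) = δ • (a * b) := by rw [← mul_assoc, h.aa, smul_mul_assoc]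
  have e3 : a * (b * c) = a * b * c := by rw [mul_assoc]
  have e4 : a * (c * b) = a * c * b := by rw [mul_assoc]
  have e5 : a * (a * c) = δ • (a * c) := by rw [← mul_assoc, h.aa, smul_mul_assoc]
  have e6 : a * (a * b * c) = δ • (a * b * c) := by
    rw [← mul_assoc, ← mul_assoc, h.aa, smul_mul_assoc, smul_mul_assoc]
  have e7 : a * (c * b * a) = a * c := by
    rw [mul_assoc c, ← mul_assoc a, ← h.ca, mul_assoc c, ← mul_assoc a, h.aba]
  have e8 : a * (b * a * c) = a * c := by rw [← mul_assoc, ← mul_assoc, h.aba]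
  have e9 : a * (a * c * b) = δ • (a * c * b) := by
    rw [← mul_assoc, ← mul_assoc, h.aa, smul_mul_assoc, smul_mul_assoc]
  have e10 : a * (b * a * c * b) = a * c * b := by
    rw [← mul_assoc, ← mul_assoc, ← mul_assoc, h.aba]
  simp only [Co.lin, Co.mA, mul_add, mul_smul_comm, mul_one, h.aa, e1, e2, e3, e4, e5, e6, e7, e8,
    e9, e10]
  module

theorem TL4.mB (h : TL4 δ a b c) (y : Co L) : (y.mB δ).lin a b c = b * y.lin a b c := by
  have e1 : b * (b * a) = δ • (b * a) := by rw [← mul_assoc, h.bb, smul_mul_assoc]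
  have e2 : b * (a * b) = b := by rw [← mul_assoc, h.bab]
  have e3 : b * (b * c) = δ • (b * c) := by rw [← mul_assoc, h.bb, smul_mul_assoc]
  have e4 : b * (c * b) = b := by rw [← mul_assoc, h.bcb]
  have e5 : b * (a * c) = b * a * c := by rw [mul_assoc]
  have e6 : b * (a * b * c) = b * c := by rw [← mul_assoc, ← mul_assoc, h.bab]
  have e7 : b * (c * b * a) = b * a := by rw [← mul_assoc, ← mul_assoc, h.bcb]
  have e8 : b * (b * a * c) = δ • (b * a * c) := by
    rw [← mul_assoc, ← mul_assoc, h.bb, smul_mul_assoc, smul_mul_assoc]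
  have e9 : b * (a * c * b) = b * a * c * b := by rw [← mul_assoc, ← mul_assoc]
  have e10 : b * (b * a * c * b) = δ • (b * a * c * b) := by
    rw [← mul_assoc, ← mul_assoc, ← mul_assoc, h.bb, smul_mul_assoc, smul_mul_assoc,
      smul_mul_assoc]
  simp only [Co.lin, Co.mB, mul_add, mul_smul_comm, mul_one, h.bb, e1, e2, e3, e4, e5, e6, e7, e8,
    e9, e10]
  module

theorem TL4.mC (h : TL4 δ a b c) (y : Co L) : (y.mC δ).lin a b c = c * y.lin a b c := by
  have e0 : ∀ z : B, c * (a * z) = a * (c * z) := fun z => by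
    rw [← mul_assoc, h.ca, mul_assoc]
  have f1 : ∀ z : B, c * (c * z) = δ • (c * z) := fun z => by
    rw [← mul_assoc, h.cc, smul_mul_assoc]
  have f2 : ∀ z : B, c * (b * (c * z)) = c * z := fun z => by
    rw [← mul_assoc, ← mul_assoc, h.cbc]
  have e1 : c * (b * a) = c * b * a := by rw [mul_assoc]
  have e2 : c * (a * b) = a * c * b := by rw [← mul_assoc, h.ca]
  have e3 : c * (b * c) = c := by rw [← mul_assoc, h.cbc]
  have e4 : c * (c * b) = δ • (c * b) := f1 b
  have e5 : c * (a * c) = δ • (a * c) := by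
    rw [← mul_assoc, h.ca, mul_assoc, h.cc, mul_smul_comm]
  have e6 : c * (a * b * c) = a * c := by rw [mul_assoc a, e0, e3]
  have e7 : c * (c * b * a) = δ • (c * b * a) := by rw [mul_assoc c, f1, ← mul_assoc]
  have e8 : c * (b * a * c) = a * c := by rw [mul_assoc b, ← h.ca, f2, h.ca]
  have e9 : c * (a * c * b) = δ • (a * c * b) := by
    rw [mul_assoc a, e0, f1, mul_smul_comm, ← mul_assoc]
  have e10 : c * (b * a * c * b) = a * c * b := by
    rw [← mul_assoc c, e8]
  simp only [Co.lin, Co.mC, mul_add, mul_smul_comm, mul_one, h.cc, h.ca, e1, e2, e3, e4, e5, e6,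
    e7, e8, e9, e10]
  module

/-- the generators as a sequence -/
def seq3 (a b c : B) (i : ℕ) : B := if i = 0 then a else if i = 1 then b else c

/-- the product with the generator `i` -/
def Co.mE (δ : L) (i : ℕ) (y : Co L) : Co L := if i = 0 then y.mA δ else if i = 1 then y.mB δ else y.mC δ

theorem TL4.mE (h : TL4 δ a b c) (i : ℕ) (y : Co L) :
    (y.mE δ i).lin a b c = seq3 a b c i * y.lin a b c := by
  unfold Co.mE seq3
  split_ifs
  · exact h.mA y
  · exact h.mB y
  · exact h.mC y

/-- the coefficients of the element of a word -/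
def coW (A A' δ : L) : List (Bool × ℕ) → Co L
  | [] => Co.one
  | x :: w => if x.1 then Co.comb A A' (coW A A' δ w) ((coW A A' δ w).mE δ x.2)
      else Co.comb A' A (coW A A' δ w) ((coW A A' δ w).mE δ x.2)

theorem TL4.wd_eq (h : TL4 δ a b c) (A A' : L) (w : List (Bool × ℕ)) :
    wd A A' (seq3 a b c) w = (coW A A' δ w).lin a b c := by
  induction w with
  | nil => simp [wd, coW, Co.lin_one]
  | cons x w ih =>
    have e : wd A A' (seq3 a b c) (x :: w) = ltr A A' (seq3 a b c) x * wd A A' (seq3 a b c) w := by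
      simp [wd]
    have e2 : coW A A' δ (x :: w) = if x.1 then Co.comb A A' (coW A A' δ w) ((coW A A' δ w).mE δ x.2)
      else Co.comb A' A (coW A A' δ w) ((coW A A' δ w).mE δ x.2) := rfl
    rw [e, ih, e2]
    unfold ltr
    by_cases hx : x.1 = true
    · rw [if_pos hx, if_pos hx, Co.lin_comb, h.mE, add_mul, smul_mul_assoc, smul_mul_assoc, one_mul]
    · rw [if_neg hx, if_neg hx, Co.lin_comb, h.mE, add_mul, smul_mul_assoc, smul_mul_assoc, one_mul]

end generic

end Pool.Agent.H360.JK
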