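import Pool.Agent.H360.JK.Cor

/-!
# The bracket polynomial of a closed 4-braid by traces
-/

set_option autoImplicit false

namespace Pool.Agent.H360.JK

open Finset LaurentPolynomial Pool.Agent.H891R2.Jones Pool.Agent.W639.RB Pool.Agent.Y463.SK
  Pool.Agent.Y463.MP Pool.Agent.Helper52_CV

theorem F4_comm (a b : TLZ 4) : F4 (a * b) = F4 (b * a) := FC_comm _ a b

theorem F4_acb : F4 (EZ 4 0 * EZ 4 2 * EZ 4 1) = 1 := by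
  rw [← tlEZ.ca, mul_assoc, F4_comm, F4_E012]

theorem F4_bac : F4 (EZ 4 1 * EZ 4 0 * EZ 4 2) = 1 := by
  rw [mul_assoc, F4_comm, F4_acb]

theorem F4_cba : F4 (EZ 4 2 * EZ 4 1 * EZ 4 0) = 1 := by
  rw [F4_comm, ← mul_assoc, F4_acb]

theorem F4_bacb : F4 (EZ 4 1 * EZ 4 0 * EZ 4 2 * EZ 4 1) = dl := by
  have h : EZ 4 1 * EZ 4 0 * EZ 4 2 * EZ 4 1 = EZ 4 1 * (EZ 4 0 * EZ 4 2 * EZ 4 1) := by
    simp only [mul_assoc]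
  have h2 : EZ 4 0 * EZ 4 2 * EZ 4 1 * EZ 4 1 = dl • (EZ 4 0 * EZ 4 2 * EZ 4 1) := by
    rw [mul_assoc, tlEZ.bb, mul_smul_comm]
  rw [h, F4_comm, h2, map_smul, F4_acb, smul_eq_mul, mul_one]

theorem F4_lin (y : Co ℤ[T;T⁻¹]) : F4 (y.lin (EZ 4 0) (EZ 4 1) (EZ 4 2)) =
    y.o * dl ^ 3 + (y.a + y.b + y.c) * dl ^ 2 + (y.ab + y.ba + y.bc + y.cb + y.ac) * dl +
      (y.abc + y.cba + y.bac + y.acb) + y.bacb * dl := by
  have h1 : F4 (EZ 4 1 * EZ 4 0) = dl := by rw [F4_comm, F4_E01]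
  have h2 : F4 (EZ 4 2 * EZ 4 1) = dl := by rw [F4_comm, F4_E12]
  unfold Co.lin
  simp only [LinearMap.map_add, LinearMap.map_smul, F4_one, F4_E0, F4_E1, F4_E2, F4_E01, F4_E12,
    F4_E02, F4_E012, smul_eq_mul, h1, h2, F4_acb, F4_bac, F4_cba, F4_bacb]
  ring

theorem TT' : (T 1 : ℤ[T;T⁻¹]) * T (-1) = 1 := T_mul_inv

/-- **the trace formula** -/
theorem F4_trace (w : List (Letter 4)) : dl * F4 (zz w) =
    (dl ^ 4 - 3 * dl ^ 2 + 1) * r1 (T 1 : ℤ[T;T⁻¹]) (T (-1)) (toN w) +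
      (dl ^ 2 - 1) * (r3 (T 1 : ℤ[T;T⁻¹]) (T (-1)) (toN w)).trace +
      (r2 (T 1 : ℤ[T;T⁻¹]) (T (-1)) (toN w)).trace := by
  rw [zz_co, F4_lin, r1_co, r3_co TT', r2_co TT']
  have e : coW (T 1 : ℤ[T;T⁻¹]) (T (-1)) (-(T 1) ^ 2 - (T (-1)) ^ 2) (toN w) = co w := rfl
  rw [e]
  generalize co w = y
  unfold Co.m3 Co.m2
  rw [Matrix.trace_fin_three_of, Matrix.trace_fin_two_of]
  have ed : (-(T 1) ^ 2 - (T (-1)) ^ 2 : ℤ[T;T⁻¹]) = dl := rfl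
  rw [ed]
  ring

end Pool.Agent.H360.JK
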