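import Pool.Agent.H360.JK.Run

/-!
# The words: elements of the braid group on four strands which are scalar modulo 2, 3, 5 in the
reduced Burau representation
-/

set_option autoImplicit false

namespace Pool.Agent.H360.JK

open Finset LaurentPolynomial Pool.Agent.H891R2.Jones Pool.Agent.W639.RB Pool.Agent.Y463.SK
  Pool.Agent.Y463.MP Pool.Agent.Helper52_CV

/-- a positive word, given by the indices of the letters -/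
def pos (l : List (Fin 3)) : List (Letter 4) := l.map fun i => (true, i)

/-- a positive word of length 24, scalar modulo 2 -/
def W2 : List (Letter 4) := pos
  [1, 2, 0, 2, 0, 1, 1, 2, 0, 0, 1, 2, 1, 0, 2, 0, 1, 1, 2, 0, 2, 0, 1, 1]

/-- a positive word of length 72, scalar modulo 3 -/
def W3 : List (Letter 4) := pos
  [1, 2, 0, 1, 0, 1, 2, 0, 2, 0, 1, 1, 1, 2, 0, 0, 1, 1, 2, 0, 0, 1, 2, 1, 1, 2, 0, 2, 0, 0, 1, 2,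
    1, 1, 2, 0, 1, 1, 2, 2, 1, 1, 2, 0, 2, 0, 1, 0, 1, 2, 0, 2, 0, 1, 1, 2, 0, 2, 0, 1, 1, 2, 0, 2,
    1, 1, 2, 0, 0, 1, 2, 1]

/-- a positive word of length 240, scalar modulo 5 -/
def W5 : List (Letter 4) := pos
  [0, 1, 2, 0, 2, 0, 1, 1, 2, 0, 1, 1, 2, 0, 0, 1, 2, 1, 1, 2, 0, 0, 1, 2, 1, 1, 2, 0, 0, 1, 2, 1,
    0, 2, 0, 1, 1, 2, 0, 0, 1, 1, 2, 0, 0, 1, 1, 2, 0, 0, 1, 2, 1, 0, 0, 1, 2, 1, 1, 2, 0, 0, 1, 2,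
    1, 1, 2, 0, 2, 0, 1, 1, 1, 2, 0, 0, 1, 1, 2, 0, 0, 1, 1, 2, 0, 0, 1, 2, 1, 0, 0, 1, 2, 1, 1, 2,
    0, 0, 1, 2, 1, 1, 2, 0, 2, 0, 1, 1, 1, 2, 0, 0, 1, 1, 2, 0, 0, 1, 1, 2, 0, 0, 1, 2, 1, 0, 0, 1,
    2, 1, 1, 2, 0, 0, 1, 2, 1, 1, 2, 0, 2, 0, 1, 1, 1, 2, 0, 0, 1, 1, 2, 0, 0, 1, 1, 2, 0, 0, 1, 2,
    1, 0, 0, 1, 2, 1, 1, 2, 0, 0, 1, 2, 1, 1, 2, 0, 2, 0, 1, 1, 1, 2, 0, 0, 1, 1, 2, 0, 0, 1, 1, 2,
    0, 0, 1, 2, 1, 0, 0, 1, 2, 1, 1, 2, 0, 0, 1, 2, 1, 1, 2, 0, 2, 0, 1, 1, 2, 0, 1, 1, 1, 2, 0, 2,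
    1, 1, 2, 0, 2, 1, 1, 2, 0, 2, 0, 2, 0, 1, 1, 2]

theorem chk2 : chk 2 8 (toN W2).reverse = true := by decide +kernel

theorem chk3 : chk 3 24 (toN W3).reverse = true := by decide +kernel

theorem chk5 : chk 5 80 (toN W5).reverse = true := by decide +kernel

end Pool.Agent.H360.JK
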